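import Pool.Agent.Q81.CL.L1
import Pool.Agent.H2CV.Defs

/-!
Project CV: the time derivative of `w × (w · ∇) w`, part 1: the algebra of the trilinear form.
-/

set_option autoImplicit false

open MeasureTheory Set Metric Filter Topology
open scoped ContDiff

namespace Pool.Agent.H1CV

open H459R3.NS
open Pool.Agent.W583.MD (sm_pd pd_mul')
open Pool.Agent.Q2.CL (pdd pd_sub_s pd_add_s pd_sum_s pd_comm_s pd_congr sm_lap)
open Pool.Agent.Q129.VD3 (aI bI)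

/-- `(a · ∇) b`. -/
noncomputable def ad (a b : Fin 3 → V → ℝ) (i : Fin 3) (x : V) : ℝ := ∑ j, a j x * pd j (b i) x

/-- `Δ w - (u · ∇) w + (w · ∇) u`. -/
noncomputable def Lo (u w : Fin 3 → V → ℝ) (i : Fin 3) (x : V) : ℝ :=
  lap (w i) x - ad u w i x + ad w u i x

/-- `a × (b · ∇) c`. -/
noncomputable def Tr (a b c : Fin 3 → V → ℝ) (i : Fin 3) (x : V) : ℝ :=
  a (aI i) x * ad b c (bI i) x - a (bI i) x * ad b c (aI i) x

/-- The trilinear form of the time derivative. -/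
noncomputable def Qf (u a b c : Fin 3 → V → ℝ) (i : Fin 3) (x : V) : ℝ :=
  Tr (Lo u a) b c i x + Tr a (Lo u b) c i x + Tr a b (Lo u c) i x

/-- Smooth fields. -/
def Sf (a : Fin 3 → V → ℝ) : Prop := ∀ i, ContDiff ℝ ∞ (a i)

lemma Sf.ad {a b : Fin 3 → V → ℝ} (ha : Sf a) (hb : Sf b) : Sf (ad a b) := fun i =>
  ContDiff.sum fun j _ => (ha j).mul (sm_pd (hb i) j)

lemma Sf.Lo {u w : Fin 3 → V → ℝ} (hu : Sf u) (hw : Sf w) : Sf (Lo u w) := fun i =>
  ((sm_lap (hw i)).sub (hu.ad hw i)).add (hw.ad hu i)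

/-- The sum. -/
def pl (a b : Fin 3 → V → ℝ) : Fin 3 → V → ℝ := fun i x => a i x + b i x

lemma Sf.pl {a b : Fin 3 → V → ℝ} (ha : Sf a) (hb : Sf b) : Sf (pl a b) := fun i =>
  (ha i).add (hb i)

lemma pd_pl {a b : Fin 3 → V → ℝ} (ha : Sf a) (hb : Sf b) (i j : Fin 3) :
    pd j (pl a b i) = fun x => pd j (a i) x + pd j (b i) x :=
  funext fun x => pd_add_s (ha i) (hb i) j x

lemma lap_pl {a b : Fin 3 → V → ℝ} (ha : Sf a) (hb : Sf b) (i : Fin 3) (x : V) :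
    lap (pl a b i) x = lap (a i) x + lap (b i) x := by
  unfold lap
  rw [← Finset.sum_add_distrib]
  refine Finset.sum_congr rfl fun j _ => ?_
  rw [pd_pl ha hb]
  exact pd_add_s (sm_pd (ha i) j) (sm_pd (hb i) j) j x

lemma ad_pl_left (a a' b : Fin 3 → V → ℝ) : ad (pl a a') b = pl (ad a b) (ad a' b) := by
  funext i x
  unfold ad pl
  simp only [add_mul, Finset.sum_add_distrib]

lemma ad_pl_right (a : Fin 3 → V → ℝ) {b b' : Fin 3 → V → ℝ} (hb : Sf b) (hb' : Sf b') :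
    ad a (pl b b') = pl (ad a b) (ad a b') := by
  funext i x
  unfold ad
  simp only [pd_pl hb hb', mul_add, Finset.sum_add_distrib]
  rfl

lemma Lo_pl {u a b : Fin 3 → V → ℝ} (ha : Sf a) (hb : Sf b) :
    Lo u (pl a b) = pl (Lo u a) (Lo u b) := by
  funext i x
  unfold Lo
  rw [lap_pl ha hb, ad_pl_left, ad_pl_right _ ha hb]
  unfold pl
  ring

lemma Tr_pl1 (a a' b c : Fin 3 → V → ℝ) (i : Fin 3) (x : V) :
    Tr (pl a a') b c i x = Tr a b c i x + Tr a' b c i x := by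
  unfold Tr pl
  ring

lemma Tr_pl2 (a b b' c : Fin 3 → V → ℝ) (i : Fin 3) (x : V) :
    Tr a (pl b b') c i x = Tr a b c i x + Tr a b' c i x := by
  unfold Tr
  rw [ad_pl_left]
  unfold pl
  ring

lemma Tr_pl3 (a b : Fin 3 → V → ℝ) {c c' : Fin 3 → V → ℝ} (hc : Sf c) (hc' : Sf c') (i : Fin 3)
    (x : V) : Tr a b (pl c c') i x = Tr a b c i x + Tr a b c' i x := by
  unfold Tr
  rw [ad_pl_right _ hc hc']
  unfold pl
  ring

/-- The expansion of the trilinear form. -/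
lemma Qf_split {u G e : Fin 3 → V → ℝ} (hu : Sf u) (hG : Sf G) (he : Sf e) (i : Fin 3) (x : V) :
    Qf u (pl G e) (pl G e) (pl G e) i x = Qf u G G G i x + Qf u e (pl G e) (pl G e) i x
      + Qf u G e (pl G e) i x + Qf u G G e i x := by
  unfold Qf
  rw [Lo_pl hG he]
  simp only [Tr_pl1, Tr_pl2, Tr_pl3 _ _ hG he, Tr_pl3 _ _ (hu.Lo hG) (hu.Lo he)]
  ring

/-! ### Bounds -/

/-- Bounds of the derivatives up to order three at a point. -/
structure Jt (α : ℝ) (a : Fin 3 → V → ℝ) (y : V) : Prop where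
  z : ∀ i, |a i y| ≤ α
  o : ∀ i j, |pd j (a i) y| ≤ α
  t : ∀ i j k, |pd k (pd j (a i)) y| ≤ α
  h : ∀ i j k l, |pd l (pd k (pd j (a i))) y| ≤ α

lemma Jt.nn {α : ℝ} {a : Fin 3 → V → ℝ} {y : V} (h : Jt α a y) : 0 ≤ α :=
  (abs_nonneg _).trans (h.z 0)

lemma abs_sum3 {f : Fin 3 → ℝ} {B : ℝ} (h : ∀ j, |f j| ≤ B) : |∑ j, f j| ≤ 3 * B := by
  rw [Fin.sum_univ_three]
  have h0 := h 0
  have h1 := h 1
  have h2 := h 2
  have h3 := abs_add_le (f 0 + f 1) (f 2)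
  have h4 := abs_add_le (f 0) (f 1)
  linarith

lemma abs_mul2 {a b A B : ℝ} (ha : |a| ≤ A) (hb : |b| ≤ B) : |a * b| ≤ A * B := by
  rw [abs_mul]
  exact mul_le_mul ha hb (abs_nonneg _) ((abs_nonneg _).trans ha)

lemma ad_bd {a b : Fin 3 → V → ℝ} {y : V} {α β : ℝ} (ha : ∀ i, |a i y| ≤ α)
    (hb : ∀ i j, |pd j (b i) y| ≤ β) (i : Fin 3) : |ad a b i y| ≤ 3 * (α * β) :=
  abs_sum3 fun j => abs_mul2 (ha j) (hb i j)

lemma Lo_bd {u a : Fin 3 → V → ℝ} {y : V} {M α : ℝ} (hM : 1 ≤ M) (hu : Jt M u y)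
    (ha : Jt α a y) (i : Fin 3) : |Lo u a i y| ≤ 9 * (M * α) := by
  have h1 : |lap (a i) y| ≤ 3 * α := abs_sum3 fun j => ha.t i j j
  have h2 := ad_bd hu.z ha.o i
  have h3 := ad_bd ha.z hu.o i
  unfold Lo
  have h4 := abs_add_le (lap (a i) y - ad u a i y) (ad a u i y)
  have h5 := abs_sub (lap (a i) y) (ad u a i y)
  have h6 : α ≤ M * α := by nlinarith [ha.nn]
  have h7 : α * M = M * α := mul_comm _ _
  rw [h7] at h3
  linarith

lemma pdLo_eq {u a : Fin 3 → V → ℝ} (hu : Sf u) (ha : Sf a) (i k : Fin 3) (y : V) :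
    pd k (Lo u a i) y = (∑ j, pd k (pd j (pd j (a i))) y)
      - (∑ j, (u j y * pd k (pd j (a i)) y + pd k (u j) y * pd j (a i) y))
      + ∑ j, (a j y * pd k (pd j (u i)) y + pd k (a j) y * pd j (u i) y) := by
  have h1 : pd k (Lo u a i) y = pd k (fun x => lap (a i) x - ad u a i x) y + pd k (ad a u i) y :=
    pd_add_s ((sm_lap (ha i)).sub (hu.ad ha i)) (ha.ad hu i) k y
  have h2 := pd_sub_s (sm_lap (ha i)) (hu.ad ha i) k y
  have h3 : pd k (lap (a i)) y = ∑ j, pd k (pd j (pd j (a i))) y :=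
    pd_sum_s (f := fun j => pd j (pd j (a i))) (fun j => sm_pd (sm_pd (ha i) j) j) k y
  have h4 : ∀ (a b : Fin 3 → V → ℝ), Sf a → Sf b → pd k (ad a b i) y
      = ∑ j, (a j y * pd k (pd j (b i)) y + pd k (a j) y * pd j (b i) y) := by
    intro a b ha hb
    have h5 : pd k (ad a b i) y = ∑ j, pd k (fun x => a j x * pd j (b i) x) y :=
      pd_sum_s (f := fun j x => a j x * pd j (b i) x) (fun j => (ha j).mul (sm_pd (hb i) j)) k y
    rw [h5]
    exact Finset.sum_congr rfl fun j _ => pd_mul' (ha j) (sm_pd (hb i) j) k y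
  rw [h1, h2, h3, h4 u a hu ha, h4 a u ha hu]

lemma pdLo_bd {u a : Fin 3 → V → ℝ} (hus : Sf u) (has : Sf a) {y : V} {M α : ℝ} (hM : 1 ≤ M)
    (hu : Jt M u y) (ha : Jt α a y) (i k : Fin 3) : |pd k (Lo u a i) y| ≤ 15 * (M * α) := by
  rw [pdLo_eq hus has]
  have h1 : |∑ j, pd k (pd j (pd j (a i))) y| ≤ 3 * α := abs_sum3 fun j => ha.h i j j k
  have h2 : |∑ j, (u j y * pd k (pd j (a i)) y + pd k (u j) y * pd j (a i) y)|
      ≤ 3 * (M * α + M * α) := abs_sum3 fun j =>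
    (abs_add_le _ _).trans (add_le_add (abs_mul2 (hu.z j) (ha.t i j k))
      (abs_mul2 (hu.o j k) (ha.o i j)))
  have h3 : |∑ j, (a j y * pd k (pd j (u i)) y + pd k (a j) y * pd j (u i) y)|
      ≤ 3 * (α * M + α * M) := abs_sum3 fun j =>
    (abs_add_le _ _).trans (add_le_add (abs_mul2 (ha.z j) (hu.t i j k))
      (abs_mul2 (ha.o j k) (hu.o i j)))
  have h6 : α ≤ M * α := by nlinarith [ha.nn]
  have h7 : α * M = M * α := mul_comm _ _
  rw [h7] at h3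
  refine (abs_add_le _ _).trans ?_
  have h8 := abs_sub (∑ j, pd k (pd j (pd j (a i))) y)
    (∑ j, (u j y * pd k (pd j (a i)) y + pd k (u j) y * pd j (a i) y))
  linarith

lemma Tr_bd {a b c : Fin 3 → V → ℝ} {y : V} {α β γ : ℝ} (ha : ∀ i, |a i y| ≤ α)
    (hb : ∀ i, |b i y| ≤ β) (hc : ∀ i j, |pd j (c i) y| ≤ γ) (i : Fin 3) :
    |Tr a b c i y| ≤ 6 * (α * β * γ) := by
  have h1 := ad_bd hb hc (aI i)
  have h2 := ad_bd hb hc (bI i)
  unfold Tr
  refine (abs_sub _ _).trans ?_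
  have h3 := abs_mul2 (ha (aI i)) h2
  have h4 := abs_mul2 (ha (bI i)) h1
  linarith

/-- The bound of the trilinear form. -/
lemma Qf_bd {u a b c : Fin 3 → V → ℝ} (hus : Sf u) (hcs : Sf c) {y : V} {M α β γ : ℝ}
    (hM : 1 ≤ M) (hu : Jt M u y) (ha : Jt α a y) (hb : Jt β b y) (hc : Jt γ c y) (i : Fin 3) :
    |Qf u a b c i y| ≤ 198 * (M * (α * β * γ)) := by
  have h1 := Tr_bd (Lo_bd hM hu ha) hb.z hc.o i
  have h2 := Tr_bd ha.z (Lo_bd hM hu hb) hc.o i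
  have h3 := Tr_bd ha.z hb.z (pdLo_bd hus hcs hM hu hc) i
  unfold Qf
  have h4 := abs_add_le (Tr (Lo u a) b c i y + Tr a (Lo u b) c i y) (Tr a b (Lo u c) i y)
  have h5 := abs_add_le (Tr (Lo u a) b c i y) (Tr a (Lo u b) c i y)
  linarith

end Pool.Agent.H1CV
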