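import Pool.Agent.H1CV.Dt1

/-!
Project CV: the time derivative of `w × (w · ∇) w`, part 2: the exact value of the trilinear form at
a radial field `g y`.
-/

set_option autoImplicit false

open MeasureTheory Set Metric Filter Topology
open scoped ContDiff

namespace Pool.Agent.H1CV

open H459R3.NS
open Pool.Agent.W583.MD (sm_pd pd_mul')
open Pool.Agent.Q2.CL (pdd pd_sub_s pd_add_s pd_sum_s pd_comm_s pd_congr sm_lap)
open Pool.Agent.Q129.VD3 (aI bI)

lemma sm_co (i : Fin 3) : ContDiff ℝ ∞ (fun x : V => x i) := contDiff_apply ℝ ℝ i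

lemma pd_co (i j : Fin 3) (x : V) : pd j (fun x : V => x i) x = if i = j then 1 else 0 := by
  unfold pd
  have h : HasFDerivAt (fun x : V => x i) (ContinuousLinearMap.proj (R := ℝ) i) x :=
    (ContinuousLinearMap.proj (R := ℝ) (φ := fun _ : Fin 3 => ℝ) i).hasFDerivAt
  rw [h.fderiv]
  simp [Pi.single_apply]

/-- The radial field `g y`. -/
noncomputable def Gx (g : V → ℝ) (i : Fin 3) (x : V) : ℝ := g x * x i

lemma Sf_Gx {g : V → ℝ} (hg : ContDiff ℝ ∞ g) : Sf (Gx g) := fun i => hg.mul (sm_co i)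

lemma pd_Gx {g : V → ℝ} (hg : ContDiff ℝ ∞ g) (i j : Fin 3) :
    pd j (Gx g i) = fun x => pd j g x * x i + (if i = j then 1 else 0) * g x := by
  funext x
  have h := pd_mul' hg (sm_co i) j x
  have h' : pd j (Gx g i) x = g x * pd j (fun x : V => x i) x + pd j g x * x i := h
  rw [h', pd_co]
  ring

lemma pd_cm {f : V → ℝ} (hf : ContDiff ℝ ∞ f) (c : ℝ) (j : Fin 3) (x : V) :
    pd j (fun y => c * f y) x = c * pd j f x := by
  have h := pd_mul' (contDiff_const (c := c)) hf j x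
  rw [h]
  unfold pd
  simp

lemma pd_Gx2 {g : V → ℝ} (hg : ContDiff ℝ ∞ g) (i j k : Fin 3) :
    pd k (pd j (Gx g i)) = fun x => pd k (pd j g) x * x i
      + (if i = k then 1 else 0) * pd j g x + (if i = j then 1 else 0) * pd k g x := by
  funext x
  rw [pd_Gx hg]
  have h1 : pd k (fun x => pd j g x * x i + (if i = j then 1 else 0) * g x) x
      = pd k (fun x => pd j g x * x i) x + pd k (fun x => (if i = j then 1 else 0) * g x) x :=
    pd_add_s ((sm_pd hg j).mul (sm_co i)) (contDiff_const.mul hg) k x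
  rw [h1, pd_mul' (sm_pd hg j) (sm_co i), pd_co, pd_cm hg]
  ring

lemma lap_Gx {g : V → ℝ} (hg : ContDiff ℝ ∞ g) (i : Fin 3) :
    lap (Gx g i) = fun x => lap g x * x i + 2 * pd i g x := by
  funext x
  unfold lap
  simp only [pd_Gx2 hg, Fin.sum_univ_three]
  fin_cases i <;> simp <;> ring

lemma pd_lap_Gx {g : V → ℝ} (hg : ContDiff ℝ ∞ g) (i k : Fin 3) (x : V) :
    pd k (lap (Gx g i)) x = pd k (lap g) x * x i + (if i = k then 1 else 0) * lap g x
      + 2 * pd k (pd i g) x := by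
  rw [lap_Gx hg]
  have h1 : pd k (fun x => lap g x * x i + 2 * pd i g x) x
      = pd k (fun x => lap g x * x i) x + pd k (fun x => 2 * pd i g x) x :=
    pd_add_s ((sm_lap hg).mul (sm_co i)) (contDiff_const.mul (sm_pd hg i)) k x
  rw [h1, pd_mul' (sm_lap hg) (sm_co i), pd_co, pd_cm (sm_pd hg i)]
  ring

lemma pdLo_eq' {u a : Fin 3 → V → ℝ} (hu : Sf u) (ha : Sf a) (i k : Fin 3) (y : V) :
    pd k (Lo u a i) y = pd k (lap (a i)) y
      - (∑ j, (u j y * pd k (pd j (a i)) y + pd k (u j) y * pd j (a i) y))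
      + ∑ j, (a j y * pd k (pd j (u i)) y + pd k (a j) y * pd j (u i) y) := by
  rw [pdLo_eq hu ha]
  have h3 : pd k (lap (a i)) y = ∑ j, pd k (pd j (pd j (a i))) y :=
    pd_sum_s (f := fun j => pd j (pd j (a i))) (fun j => sm_pd (sm_pd (ha i) j) j) k y
  rw [h3]

/-- The cross product with the position. -/
noncomputable def xc (y : V) (a : Fin 3 → ℝ) (i : Fin 3) : ℝ := y (aI i) * a (bI i) - y (bI i) * a (aI i)

/-- The exact value at a radial field. -/
lemma Qf_Gx {u : Fin 3 → V → ℝ} (hu : Sf u) {g : V → ℝ} (hg : ContDiff ℝ ∞ g) (i : Fin 3) (y : V) :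
    Qf u (Gx g) (Gx g) (Gx g) i y
      = -2 * g y * (∑ j, y j * pd j g y) * xc y (fun k => pd k g y) i
        + 2 * g y ^ 2 * xc y (fun k => ∑ j, y j * pd j (pd k g) y) i
        + g y ^ 3 * xc y (fun k => ∑ j, ∑ l, y j * y l * pd j (pd l (u k)) y) i := by
  have hG := Sf_Gx hg
  have c1 : ∀ x, pd 1 (pd 0 g) x = pd 0 (pd 1 g) x := fun x => pd_comm_s hg 1 0 x
  have c2 : ∀ x, pd 2 (pd 0 g) x = pd 0 (pd 2 g) x := fun x => pd_comm_s hg 2 0 x
  have c3 : ∀ x, pd 2 (pd 1 g) x = pd 1 (pd 2 g) x := fun x => pd_comm_s hg 2 1 x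
  have d1 : ∀ i x, pd 1 (pd 0 (u i)) x = pd 0 (pd 1 (u i)) x := fun i x => pd_comm_s (hu i) 1 0 x
  have d2 : ∀ i x, pd 2 (pd 0 (u i)) x = pd 0 (pd 2 (u i)) x := fun i x => pd_comm_s (hu i) 2 0 x
  have d3 : ∀ i x, pd 2 (pd 1 (u i)) x = pd 1 (pd 2 (u i)) x := fun i x => pd_comm_s (hu i) 2 1 x
  unfold Qf Tr xc
  have hLo : ∀ i, Lo u (Gx g) i y = lap g y * y i + 2 * pd i g y
      - (∑ j, u j y * (pd j g y * y i + (if i = j then 1 else 0) * g y))
      + ∑ j, g y * y j * pd j (u i) y := by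
    intro i
    unfold Lo ad
    rw [lap_Gx hg]
    simp only [pd_Gx hg]
    rfl
  have hA1 : ∀ i, ad (Gx g) (Gx g) i y
      = ∑ j, g y * y j * (pd j g y * y i + (if i = j then 1 else 0) * g y) := by
    intro i
    unfold ad
    simp only [pd_Gx hg]
    rfl
  have hA2 : ∀ i, ad (Lo u (Gx g)) (Gx g) i y
      = ∑ j, Lo u (Gx g) j y * (pd j g y * y i + (if i = j then 1 else 0) * g y) := by
    intro i
    unfold ad
    simp only [pd_Gx hg]
  have hA3 : ∀ i, ad (Gx g) (Lo u (Gx g)) i y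
      = ∑ k, g y * y k * (pd k (lap g) y * y i + (if i = k then 1 else 0) * lap g y
      + 2 * pd k (pd i g) y
      - (∑ j, (u j y * (pd k (pd j g) y * y i
      + (if i = k then 1 else 0) * pd j g y + (if i = j then 1 else 0) * pd k g y)
          + pd k (u j) y * (pd j g y * y i + (if i = j then 1 else 0) * g y)))
      + ∑ j, (g y * y j * pd k (pd j (u i)) y
          + (pd k g y * y j + (if j = k then 1 else 0) * g y) * pd j (u i) y)) := by
    intro i
    unfold ad
    refine Finset.sum_congr rfl fun k _ => ?_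
    rw [pdLo_eq' hu hG, pd_lap_Gx hg]
    have e2 : ∀ i j k, pd k (pd j (Gx g i)) y = pd k (pd j g) y * y i
        + (if i = k then 1 else 0) * pd j g y + (if i = j then 1 else 0) * pd k g y :=
      fun i j k => congrFun (pd_Gx2 hg i j k) y
    have e1 : ∀ i j, pd j (Gx g i) y = pd j g y * y i + (if i = j then 1 else 0) * g y :=
      fun i j => congrFun (pd_Gx hg i j) y
    simp only [e2]
    simp only [e1]
    rfl
  rw [hA1, hA1, hA2, hA2, hA3, hA3]
  simp only [hLo]
  have hGy : ∀ i, Gx g i y = g y * y i := fun _ => rfl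
  simp only [hGy]
  fin_cases i <;>
  · simp only [aI, bI, Fin.sum_univ_three, Fin.isValue, Fin.zero_eta, Fin.mk_one, Fin.reduceFinMk,
      Matrix.cons_val_zero, Matrix.cons_val_one, Matrix.cons_val, c1, c2, c3, d1, d2, d3,
      Fin.reduceEq, ↓reduceIte, one_ne_zero, zero_ne_one, one_mul, zero_mul, add_zero]
    ring

end Pool.Agent.H1CV
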