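import Pool.Agent.Q95.CL.GoodL
import Pool.Agent.H2CV.Defs
import Pool.Agent.H1VL.SelS

/-!
A cube surface of good points during a time interval, for a local solution (`StmGoodT`), after
`Pool.Agent.Q95.CL.GoodA` and `Pool.Agent.H1VL.GoodS`.
-/

set_option autoImplicit false

open MeasureTheory Set Metric Filter Topology
open scoped ContDiff ENNReal

namespace Pool.Agent.H1CV

open H459R3.NS W221.NS W221.NS.B
open Pool.Agent.TH305.LW (Pth ms MollP pth_exists pth_speed2 ms_lint frame_int ms_eq mass_cont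
  time_abs)
open Pool.Agent.TH305.DR (SS ST Om ST_frv st_jsT SS_nonneg SS_succ SS_zero)
open Pool.Agent.Q85.CC (SQ cur Gd hgt pr2)
open Pool.Agent.Q85.CL (LSl)
open Pool.Agent.H2CV (StmGoodT)
open Pool.Agent.Q26.CC
open Pool.Agent.Q95.CL
open Pool.Agent.H1VL (selS)

/-- The bounds near a path with small dissipation, on a time interval. -/
lemma loc_endT {c εt : ℝ} (hloc : LocaP εt c) {T κ E : ℝ} {O : Set V} {U : ℝ → V → V}
    {P : ℝ → V → ℝ}
    (hL : LSol T κ E O U P) {q t α : ℝ} {y : V} (hq : 0 < q) (hα : 0 < α)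
    (hαt : α < t - q ^ 2) (ht : t < T) {Y : ℝ → V} (hY : Pth q U α t Y) (hYt : Y t = y)
    (hO : ∀ τ ∈ Ioo (t - q ^ 2) t, ball (Y τ) (8 * q) ⊆ O)
    (hm : ms U q Y (t - q ^ 2) t ≤ εt) {K : ℝ} (hK : 0 ≤ K)
    (hsp : ∀ τ ∈ Ioo (t - q ^ 2) t, ‖y - Y τ‖ ≤ K / q * (t - τ)) :
    ∀ τ ∈ Ioc (t - q ^ 2 / (32 * (K + 1))) t, ∀ z ∈ ball y (q / 32), ∀ (n : ℕ) (i j : Fin 3),
      SS n (Om i j (U τ)) z ≤ (c ^ (n + 1) * n.factorial / q ^ (n + 2)) ^ 2 := by
  intro τ hτ z hz n i j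
  have hq2 : 0 < q ^ 2 := by positivity
  rcases eq_or_lt_of_le hτ.2 with h0 | h0
  · rw [h0]
    exact loc_endG hloc hL hq hα hαt ht hY hYt hO hm z (ball_subset_ball (by linarith) hz) n i j
  have hu := hL.smooth_u
  have hL2 := p_frame2 T κ E O U P hL q t hq (by linarith) ht Y
    (hY.smooth.mono (Ioo_subset_Ioo_left hαt.le))
    (fun τ hτ => hY.ode τ ⟨hαt.trans hτ.1, hτ.2⟩) hO
  have hInt := frame_int (r := q) (s := t) hu hq hα hαt.le le_rfl ht hY.cont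
  have hms := ms_eq (r := q) (s := t) hu hq (by linarith) ht Y
  have hl := hloc _ _ hL2 hInt (by rw [hms]; exact hm)
  have hST : SS n (Om i j (U τ)) z ≤ ST n (U τ) z :=
    Finset.single_le_sum (f := fun p : Fin 3 × Fin 3 => SS n (Om p.1 p.2 (U τ)) z)
      (fun _ _ => SS_nonneg _ _ _) (Finset.mem_univ (i, j))
  refine hST.trans ?_
  have hK1 : 0 < 32 * (K + 1) := by positivity
  have e0 : q ^ 2 / (32 * (K + 1)) ≤ q ^ 2 / 32 := by
    apply div_le_div_of_nonneg_left hq2.le (by norm_num)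
    linarith
  have e3 : t - τ < q ^ 2 / (32 * (K + 1)) := by linarith [hτ.1]
  have h2 : τ ∈ Ioo (t - q ^ 2 / 32) t := ⟨by linarith, h0⟩
  have h1 : z ∈ ball (Y τ) (q / 16) := by
    have h3 := hsp τ ⟨by linarith [h2.1], h0⟩
    have h4 : K / q * (t - τ) ≤ q / 32 := by
      have h5 : K / q * (t - τ) ≤ K / q * (q ^ 2 / (32 * (K + 1))) :=
        mul_le_mul_of_nonneg_left e3.le (by positivity)
      have h6 : K / q * (q ^ 2 / (32 * (K + 1))) = q / 32 * (K / (K + 1)) := by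
        field_simp
      have h7 : K / (K + 1) ≤ 1 := by
        rw [div_le_one (by linarith)]
        linarith
      have h8 : q / 32 * (K / (K + 1)) ≤ q / 32 * 1 :=
        mul_le_mul_of_nonneg_left h7 (by positivity)
      linarith
    rw [Metric.mem_ball, dist_eq_norm] at hz ⊢
    calc ‖z - Y τ‖ = ‖(z - y) + (y - Y τ)‖ := by congr 1; abel
      _ ≤ ‖z - y‖ + ‖y - Y τ‖ := norm_add_le _ _
      _ < q / 32 + q / 32 := by linarith
      _ = q / 16 := by ring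
  have hs : (τ - t) / q ^ 2 ∈ Ioo (-1 / 32 : ℝ) 0 := by
    constructor
    · rw [lt_div_iff₀ hq2]
      linarith [h2.1]
    · exact div_neg_of_neg_of_pos (by linarith [h2.2]) hq2
  have hz' : q⁻¹ • (z - Y τ) ∈ ball (0 : V) (1 / 16) := by
    rw [Metric.mem_ball, dist_eq_norm] at h1
    rw [mem_ball_zero_iff, norm_smul, norm_inv, Real.norm_eq_abs, abs_of_pos hq,
      inv_mul_lt_iff₀ hq]
    linarith
  have h3 := hl n _ hs _ hz'
  have hτe : t + q ^ 2 * ((τ - t) / q ^ 2) = τ := time_abs hq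
  have hcd : ContDiff ℝ ∞ (U (t + q ^ 2 * ((τ - t) / q ^ 2))) := by
    rw [hτe]
    exact W382.ME.cd_slice hu ⟨by nlinarith [h2.1], by linarith [h2.2]⟩
  rw [ST_frv n hcd, hτe, smul_smul, mul_inv_cancel₀ hq.ne', one_smul, add_sub_cancel] at h3
  rw [div_pow, le_div_iff₀ (by positivity)]
  calc ST n (U τ) z * (q ^ (n + 2)) ^ 2 = q ^ (2 * n + 4) * ST n (U τ) z := by ring
    _ ≤ _ := h3

/-- Analytic bounds near a point with small weighted dissipation, on an open set, during a time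
interval. -/
theorem good_ptT {c εt ε0 CM : ℝ} {k1 : ℕ} (hloc : LocaP εt c) (hCM : 0 < CM) (hmol : MollP CM)
    (hε0 : 0 < ε0) (hgen : GenP CM εt ε0 k1) {T κ E : ℝ} {O : Set V} {U : ℝ → V → V}
    {P : ℝ → V → ℝ}
    (hκ : 0 ≤ κ) (hE : 0 ≤ E) (hL3 : LSol3 T κ E 0 O U P)
    (hL : LSol T κ E O U P) {K ρ t D : ℝ} {y : V} {J : ℕ} (hK : 0 ≤ K) (hρ : 0 < ρ)
    (hρ1 : ρ ≤ 1) (hρt : 3 * ρ ^ 2 < t) (ht : t < T)
    (hyO : ball y (10 * ρ + 2 * D) ⊆ O)
    (hsp : 2 * CM * E * √ρ ≤ D)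
    (hvel : ∀ τ ∈ Ioo (t - 2 * ρ ^ 2) t, ∀ z ∈ closedBall y D, ∀ ρ' ∈ Ioc 0 ρ,
      ‖mol ρ' U τ z‖ ≤ K / ρ')
    (hmass : ∫⁻ τ in Ioo (t - 2 * ρ ^ 2) t, ∫⁻ z in ball y ((8 + 2 * K) * ρ),
      ENNReal.ofReal (gsq (U τ) z)
        ≤ ENNReal.ofReal (ε0 * 2 ^ Pool.Agent.TH305.LW.KK k1 J * ρ))
    (hw : DD (fun τ z => ENNReal.ofReal (gsq (U τ) z)) t (1 / 1152) (8 + 2 * K) ρ y
      ≤ ENNReal.ofReal (ε0 * ρ)) :
    ∀ τ ∈ Ioc (t - (rr (Pool.Agent.TH305.LW.KK k1 (J + 1)) * ρ) ^ 2 / (32 * (K + 1))) t,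
    ∀ z ∈ ball y (rr (Pool.Agent.TH305.LW.KK k1 (J + 1)) * ρ / 32), ∀ (n : ℕ) (i j : Fin 3),
      SS n (Om i j (U τ)) z ≤ (c ^ (n + 1) * n.factorial /
        (rr (Pool.Agent.TH305.LW.KK k1 (J + 1)) * ρ) ^ (n + 2)) ^ 2 := by
  have hu := hL.smooth_u
  have hρ2 : 0 < ρ ^ 2 := by positivity
  obtain ⟨α, hαd⟩ : ∃ α, α = t - 3 * ρ ^ 2 := ⟨_, rfl⟩
  have hα : 0 < α := by rw [hαd]; linarith
  have hαt : α < t := by rw [hαd]; linarith
  have hα2 : α < t - 2 * ρ ^ 2 := by rw [hαd]; linarith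
  obtain ⟨X, hX, hXt⟩ := pth_exists hmol hκ hE hL3 hρ hα hαt ht y
  -- the path stays near `y`
  have hrough : ∀ τ ∈ Ico (t - 2 * ρ ^ 2) t, X τ ∈ closedBall y D := by
    intro τ hτ
    have h1 := pth_speed2 hCM hmol hκ hE hL3 hρ le_rfl hα ht hX (a := τ) (b := t)
      (by linarith [hτ.1]) hτ.2.le le_rfl (by linarith [hτ.1])
    rw [hXt] at h1
    rw [mem_closedBall, dist_comm, dist_eq_norm]
    linarith
  have hnear : ∀ τ ∈ Ioo (t - 2 * ρ ^ 2) t, ‖y - X τ‖ ≤ 2 * K * ρ := by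
    intro τ hτ
    have h1 := speed_along hX (a := τ) (b := t) (M := K / ρ) (by linarith [hτ.1]) hτ.2.le le_rfl
      (fun τ' hτ' => hvel τ' ⟨hτ.1.trans_le hτ'.1, hτ'.2⟩ _
        (hrough τ' ⟨(hτ.1.trans_le hτ'.1).le, hτ'.2⟩) ρ ⟨hρ, le_rfl⟩)
    rw [hXt] at h1
    have h2 : K / ρ * (t - τ) ≤ K / ρ * (2 * ρ ^ 2) := by
      apply mul_le_mul_of_nonneg_left _ (by positivity)
      linarith [hτ.1]
    have h3 : K / ρ * (2 * ρ ^ 2) = 2 * K * ρ := by field_simp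
    linarith
  have hball : ∀ τ ∈ Ioo (t - 2 * ρ ^ 2) t, ball (X τ) (8 * ρ) ⊆ ball y ((8 + 2 * K) * ρ) := by
    intro τ hτ
    apply ball_subset_ball'
    rw [dist_comm, dist_eq_norm]
    have := hnear τ hτ
    linarith
  have hmono : ∀ (W : ℝ → ℝ≥0∞) (b : ℝ), b ≤ t →
      ∫⁻ τ in Ioo (t - 2 * ρ ^ 2) b, W τ * ∫⁻ z in ball (X τ) (8 * ρ), ENNReal.ofReal (gsq (U τ) z)
        ≤ ∫⁻ τ in Ioo (t - 2 * ρ ^ 2) b, W τ *
          ∫⁻ z in ball y ((8 + 2 * K) * ρ), ENNReal.ofReal (gsq (U τ) z) := by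
    intro W b hb
    apply setLIntegral_mono' measurableSet_Ioo
    intro τ hτ
    exact mul_le_mul_right (lintegral_mono_set (hball τ ⟨hτ.1, hτ.2.trans_le hb⟩)) _
  have hlint : ∀ b : ℝ, t - 2 * ρ ^ 2 ≤ b → b ≤ t → ENNReal.ofReal (ρ * ms U ρ X (t - 2 * ρ ^ 2) b)
      = ∫⁻ τ in Ioo (t - 2 * ρ ^ 2) b, ∫⁻ z in ball (X τ) (8 * ρ), ENNReal.ofReal (gsq (U τ) z) :=
    fun b h1 h2 => ms_lint hu hα ht hX.cont hρ hα2.le h1 h2
  have hO : ball (X t) (10 * ρ + 4 * CM * E * √ρ) ⊆ O := by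
    refine Subset.trans ?_ hyO
    rw [hXt]
    apply ball_subset_ball
    linarith
  -- the total mass
  have htot : ms U ρ X (t - 2 * ρ ^ 2) t ≤ ε0 * 2 ^ Pool.Agent.TH305.LW.KK k1 J := by
    have h1 := hmono (fun _ => 1) t le_rfl
    simp only [one_mul] at h1
    rw [← hlint t (by linarith) le_rfl] at h1
    have h2 := h1.trans hmass
    rw [ENNReal.ofReal_le_ofReal_iff (by positivity)] at h2
    have h3 : ρ * ms U ρ X (t - 2 * ρ ^ 2) t ≤ ρ * (ε0 * 2 ^ Pool.Agent.TH305.LW.KK k1 J) := by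
      linarith
    exact le_of_mul_le_mul_left h3 hρ
  -- the weighted mass
  have hwt : ∀ θ ∈ Ioo (0 : ℝ) 1, θ ^ (1 / 1152 : ℝ) *
      ms U ρ X (t - 2 * ρ ^ 2) (t - θ * ρ ^ 2) ≤ ε0 := by
    intro θ hθ
    have hθr : 0 < θ * ρ ^ 2 := mul_pos hθ.1 hρ2
    have hθr' : θ * ρ ^ 2 ≤ ρ ^ 2 := by nlinarith only [hθ.2, hρ2]
    have h1 := hlint (t - θ * ρ ^ 2) (by linarith) (by linarith)
    have h0 : 0 ≤ θ ^ (1 / 1152 : ℝ) := Real.rpow_nonneg hθ.1.le _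
    have h2 : ENNReal.ofReal (θ ^ (1 / 1152 : ℝ)) *
        ENNReal.ofReal (ρ * ms U ρ X (t - 2 * ρ ^ 2) (t - θ * ρ ^ 2))
        ≤ ENNReal.ofReal (ε0 * ρ) := by
      rw [h1, ← lintegral_const_mul' _ _ ENNReal.ofReal_ne_top]
      refine le_trans ?_ hw
      calc ∫⁻ τ in Ioo (t - 2 * ρ ^ 2) (t - θ * ρ ^ 2), ENNReal.ofReal (θ ^ (1 / 1152 : ℝ)) *
            ∫⁻ z in ball (X τ) (8 * ρ), ENNReal.ofReal (gsq (U τ) z)
          ≤ ∫⁻ τ in Ioo (t - 2 * ρ ^ 2) (t - θ * ρ ^ 2), ENNReal.ofReal (θ ^ (1 / 1152 : ℝ)) *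
            ∫⁻ z in ball y ((8 + 2 * K) * ρ), ENNReal.ofReal (gsq (U τ) z) :=
            hmono (fun _ => ENNReal.ofReal (θ ^ (1 / 1152 : ℝ))) _ (by linarith)
        _ ≤ ∫⁻ τ in Ioo (t - 2 * ρ ^ 2) (t - θ * ρ ^ 2),
            ENNReal.ofReal (((t - τ) / ρ ^ 2) ^ (1 / 1152 : ℝ)) *
            ∫⁻ z in ball y ((8 + 2 * K) * ρ), ENNReal.ofReal (gsq (U τ) z) := by
            apply setLIntegral_mono' measurableSet_Ioo
            intro τ hτ
            apply mul_le_mul_left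
            apply ENNReal.ofReal_le_ofReal
            apply Real.rpow_le_rpow hθ.1.le _ (by norm_num)
            rw [le_div_iff₀ hρ2]
            linarith [hτ.2]
        _ ≤ _ := lintegral_mono_set (Ioo_subset_Ioo le_rfl (by linarith))
    rw [← ENNReal.ofReal_mul h0, ENNReal.ofReal_le_ofReal_iff (by positivity)] at h2
    have h4 : ρ * (θ ^ (1 / 1152 : ℝ) * ms U ρ X (t - 2 * ρ ^ 2) (t - θ * ρ ^ 2)) ≤ ρ * ε0 := by
      linarith only [h2]
    exact le_of_mul_le_mul_left h4 hρ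
  -- the small scale
  obtain ⟨q, hqd⟩ : ∃ q, q = rr (Pool.Agent.TH305.LW.KK k1 (J + 1)) * ρ := ⟨_, rfl⟩
  have hr0 : 0 < rr (Pool.Agent.TH305.LW.KK k1 (J + 1)) := by unfold rr; positivity
  have hr1 : rr (Pool.Agent.TH305.LW.KK k1 (J + 1)) ≤ 1 := by
    unfold rr
    exact pow_le_one₀ (by norm_num) (by norm_num)
  have hq : 0 < q := by rw [hqd]; positivity
  have hqρ : q ≤ ρ := by rw [hqd]; nlinarith
  have hq2 : q ^ 2 ≤ ρ ^ 2 := pow_le_pow_left₀ hq.le hqρ 2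
  obtain ⟨Y, hY, hYt⟩ := pth_exists hmol hκ hE hL3 hq hα hαt ht y
  have hmain := hgen T κ E 0 O U P hκ hE le_rfl hL3 α t ρ hα ht hρ hρ1 hα2
    (by rw [mul_zero]; exact hε0.le) X hX hO hwt J htot Y (by rw [← hqd]; exact hY)
    (by rw [hXt, hYt, sub_self, norm_zero]; positivity)
  rw [← hqd] at hmain ⊢
  have hroughY : ∀ τ ∈ Ico (t - q ^ 2) t, ‖y - Y τ‖ ≤ 2 * CM * E * √ρ := by
    intro τ hτ
    have h1 := pth_speed2 hCM hmol hκ hE hL3 hq hqρ hα ht hY (a := τ) (b := t)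
      (by linarith [hτ.1]) hτ.2.le le_rfl (by linarith [hτ.1, sq_nonneg q])
    rw [hYt] at h1
    exact h1
  refine loc_endT hloc hL hq hα (by linarith) ht hY hYt ?_ hmain hK ?_
  · intro τ hτ
    have h1 := hroughY τ ⟨hτ.1.le, hτ.2⟩
    refine Subset.trans ?_ hyO
    apply ball_subset_ball'
    rw [dist_comm, dist_eq_norm]
    have h0 : 0 ≤ 2 * CM * E * √ρ := by positivity
    linarith
  · intro τ hτ
    have h1 := speed_along hY (a := τ) (b := t) (M := K / q) (by linarith [hτ.1]) hτ.2.le le_rfl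
      (fun τ' hτ' => hvel τ' ⟨by linarith [hτ.1, hτ'.1], hτ'.2⟩ _
        (by
          have h2 := hroughY τ' ⟨by linarith [hτ.1, hτ'.1], hτ'.2⟩
          rw [mem_closedBall, dist_comm, dist_eq_norm]
          linarith) q ⟨hq, hqρ⟩)
    rw [hYt] at h1
    exact h1

theorem goodT : StmGoodT := by
  obtain ⟨εt, hεt, c, hc, hloc0⟩ := Pool.Agent.Y302.AN.t_loca Pool.Agent.Y455.AN.t_ead
    Pool.Agent.Y7.a_pta Pool.Agent.Y475.AN.t_hara
  have hloc : LocaP εt c := fun v q h1 h2 h3 n t ht x hx => (hloc0 v q h1 h2 h3 n t ht x hx).1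
  obtain ⟨CM, hCM, hmol, hgen0⟩ := Pool.Agent.TH305.LW.gen_all
  obtain ⟨k1, ε0, hk1, hε0, hgen⟩ := hgen0 εt hεt
  refine ⟨c, hc, ?_⟩
  intro K C₁ hK hC₁
  obtain ⟨a, had⟩ : ∃ a, a = 8 + 2 * K := ⟨_, rfl⟩
  have ha8 : 8 ≤ a := by rw [had]; linarith
  have ha : 0 ≤ a := by linarith
  obtain ⟨N, hN⟩ := selS (β := 1 / 1152) (a := a) (ε := ε0) (C := C₁ * (4 + a))
    (by norm_num) (by norm_num) ha hε0 (by positivity)
  obtain ⟨J, hJ⟩ := pow_unbounded_of_one_lt (C₁ * a / ε0) (show (1 : ℝ) < 2 by norm_num)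
  have hJ' : C₁ * a ≤ ε0 * 2 ^ Pool.Agent.TH305.LW.KK k1 J := by
    have h1 : (2 : ℝ) ^ J ≤ 2 ^ Pool.Agent.TH305.LW.KK k1 J :=
      pow_le_pow_right₀ (by norm_num) (Pool.Agent.TH305.LW.KK_ge k1 J)
    have h2 := (hJ.trans_le h1).le
    rw [div_le_iff₀ hε0] at h2
    linarith
  obtain ⟨R, hR⟩ : ∃ R, R = rr (Pool.Agent.TH305.LW.KK k1 (J + 1)) := ⟨_, rfl⟩
  have hR0 : 0 < R := by rw [hR]; unfold rr; positivity
  have hR1 : R ≤ 1 := by
    rw [hR]
    unfold rr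
    exact pow_le_one₀ (by norm_num) (by norm_num)
  have h2N : (1 : ℝ) ≤ 2 ^ N := one_le_pow₀ (by norm_num)
  have hK1 : 0 < 64 * (K + 1) := by positivity
  have hK64 : 64 ≤ 64 * (K + 1) := by linarith
  refine ⟨R / 2 ^ N / (64 * (K + 1)), a + 4, by positivity, ?_, by linarith, ?_⟩
  · have : R / 2 ^ N ≤ 1 := by
      rw [div_le_one (by positivity)]
      linarith
    rw [div_le_one hK1]
    linarith
  intro T E O u p hT hsol b ρ₀ hρ₀ hO
  have hE0 : 0 ≤ E := by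
    refine le_trans (setIntegral_nonneg hsol.openO.measurableSet fun x _ => ?_)
      (hsol.en (T / 2) ⟨by linarith, by linarith⟩)
    unfold nsq
    exact Finset.sum_nonneg fun i _ => by positivity
  obtain ⟨ζ, κ, hκ, -, hζ1, hL⟩ := cut_exists hsol hE0 hρ₀ hO
  have hL3 := lsol3_of hL
  have hG : IsOpen (ball b (7 / 8 * ρ₀)) := isOpen_ball
  have hζG : ∀ x ∈ ball b (7 / 8 * ρ₀), ζ x = 1 := fun x hx => hζ1 x (ball_subset_closedBall hx)
  have hEs : 0 ≤ √E := Real.sqrt_nonneg E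
  obtain ⟨ra, hra, hsma⟩ := small_r (T := T) (A := 2 * CM * √E * (2 / ρ₀)) (L := a + 4) hT
  obtain ⟨rb, hrb, hsmb⟩ := small_r (T := T) (A := 0) (L := 8 * (a + 200) / ρ₀) hT
  refine ⟨min ra rb, lt_min hra hrb, ?_⟩
  intro t r x hr hrr ht1 ht2 hx hvel hdis
  obtain ⟨a1, a2, a3, a4, a5⟩ := hsma r hr (hrr.trans (min_le_left _ _))
  obtain ⟨-, -, b3, -, -⟩ := hsmb r hr (hrr.trans (min_le_right _ _))
  have hb3 : (a + 200) * r ≤ ρ₀ / 8 := by
    have h1 : 8 * (a + 200) / ρ₀ * r = ((a + 200) * r) / (ρ₀ / 8) := by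
      field_simp
    rw [h1, div_le_one (by positivity)] at b3
    exact b3
  have har0 : 0 ≤ a * r := by positivity
  have hr200 : 200 * r ≤ ρ₀ / 8 := by linarith only [har0, hb3, hr]
  have harρ : a * r ≤ ρ₀ / 8 := by linarith only [har0, hb3, hr]
  have hsq : 2 * CM * √E * √r ≤ ρ₀ / 8 := by
    have h1 : 2 * CM * √E * (2 / ρ₀) * √r = (2 * CM * √E * √r) * (2 / ρ₀) := by ring
    rw [h1, mul_div_assoc', div_le_iff₀ hρ₀] at a2
    linarith
  have ht0 : 0 < t := by linarith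
  have hu : ContDiffOn ℝ ∞ (fun z : ℝ × V => u z.1 z.2) (Ioo 0 T ×ˢ univ) := hsol.smooth_u
  have hr2 : 0 < r ^ 2 := by positivity
  have har : 0 < (4 + a) * r := by positivity
  -- the total dissipation
  have hlint : ∀ (y : V) (ρ' b : ℝ), y ∈ closedBall x (ρ₀ / 4) → 0 < ρ' → ρ' ≤ (a + 4) * r →
      t - ρ' ^ 2 ≤ b → b < t →
      ∫⁻ τ in Ioo b t, ∫⁻ z in ball y ρ', ENNReal.ofReal (gsq (u τ) z)
        ≤ ENNReal.ofReal (C₁ * ρ') := by
    intro y ρ' b h0 h1 h2 h3 h4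
    have h5 : ρ' ^ 2 ≤ ((a + 4) * r) ^ 2 := pow_le_pow_left₀ h1.le h2 2
    have h50 : 0 < ρ' ^ 2 := by positivity
    have h51 : 0 < ((a + 4) * r) ^ 2 := by positivity
    have h6 := lint_conv hu (a := t - ρ' ^ 2) (b := t) (by linarith) (by linarith) ht2 y ρ'
    calc ∫⁻ τ in Ioo b t, ∫⁻ z in ball y ρ', ENNReal.ofReal (gsq (u τ) z)
        ≤ ∫⁻ τ in Ioo (t - ρ' ^ 2) t, ∫⁻ z in ball y ρ', ENNReal.ofReal (gsq (u τ) z) :=
          lintegral_mono_set (Ioo_subset_Ioo_left h3)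
      _ = ENNReal.ofReal (∫ τ in Ioo (t - ρ' ^ 2) t, B2 y ρ' (u τ)) := h6
      _ ≤ _ := ENNReal.ofReal_le_ofReal (hdis y h0 ρ' ⟨h1, h2⟩)
  have htotal : ∫⁻ τ in Ioo (t - r ^ 2) t, ∫⁻ z in ball x ((4 + a) * r),
      ENNReal.ofReal (gsq (u τ) z) ≤ ENNReal.ofReal (C₁ * (4 + a) * r) := by
    have h0 : r ^ 2 ≤ ((4 + a) * r) ^ 2 :=
      pow_le_pow_left₀ hr.le (by linarith only [har0, hr]) 2
    have h1 := hlint x ((4 + a) * r) (t - r ^ 2) (mem_closedBall_self (by positivity)) har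
      (by linarith) (by linarith) (by linarith)
    rw [mul_assoc]
    exact h1
  obtain ⟨n, hn, s, hs, hgood⟩ := hN (fun τ z => ENNReal.ofReal (gsq (u τ) z)) t r x hr
    htotal
  refine ⟨s, hs, ?_⟩
  intro y hy1
  have hyx : y ∈ closedBall x (4 * r) := by
    rw [mem_closedBall, dist_eq_norm, hy1]
    linarith [hs.2]
  have hD := hgood y hy1
  obtain ⟨ρ, hρd⟩ : ∃ ρ, ρ = sc r n := ⟨_, rfl⟩
  rw [← hρd] at hD
  have hρ : 0 < ρ := by rw [hρd]; exact sc_pos hr n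
  have hρr : ρ ≤ r / 2 := by rw [hρd]; exact sc_le hr n
  have hρ2 : ρ ^ 2 ≤ r ^ 2 := pow_le_pow_left₀ hρ.le (by linarith) 2
  have hρ20 : 0 < ρ ^ 2 := by positivity
  have hyx' : dist y x ≤ 4 * r := hyx
  have hxb : dist x b ≤ ρ₀ / 2 := by
    rw [dist_eq_norm]
    exact hx
  have hyb : dist y b ≤ ρ₀ / 2 + 4 * r := by
    have := dist_triangle y x b
    linarith
  have haρ : a * ρ ≤ ρ₀ / 8 := by
    have h1 : a * ρ ≤ a * r := mul_le_mul_of_nonneg_left (by linarith) ha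
    linarith
  have hball : ball y (a * ρ) ⊆ ball b (7 / 8 * ρ₀) := by
    apply ball_subset_ball'
    linarith
  have hcutI : ∀ τ, ∫⁻ z in ball y (a * ρ), ENNReal.ofReal (gsq (fun x => ζ x • u τ x) z)
      = ∫⁻ z in ball y (a * ρ), ENNReal.ofReal (gsq (u τ) z) := fun τ =>
    setLIntegral_congr_fun measurableSet_ball fun z hz => by
      simp only [gsq_cutG hG hζG τ (hball hz)]
  have key := good_ptT hloc hCM hmol hε0 hgen hκ hEs hL3 hL (K := K) (ρ := ρ) (t := t) (y := y)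
    (D := ρ₀ / 8) (J := J) hK hρ (by linarith) (by linarith) ht2
    (by
      apply ball_subset_ball'
      linarith)
    (by
      have h1 : √ρ ≤ √r := Real.sqrt_le_sqrt (by linarith)
      have h2 : 2 * CM * √E * √ρ ≤ 2 * CM * √E * √r := mul_le_mul_of_nonneg_left h1 (by positivity)
      linarith)
    (by
      intro τ hτ z hz ρ' hρ'
      rw [mem_closedBall] at hz
      have hρρ := hρ'.2
      rw [mol_cutG hζG τ hρ'.1 (by
        apply ball_subset_ball'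
        have := dist_triangle z y b
        linarith)]
      apply hvel τ _ z _ ρ' ⟨hρ'.1, by linarith⟩
      · refine ⟨?_, hτ.2⟩
        have h1 : 2 * r ^ 2 ≤ (a + 4) * r ^ 2 :=
          mul_le_mul_of_nonneg_right (by linarith only [ha]) hr2.le
        linarith only [hτ.1, h1, hρ2]
      · rw [mem_closedBall]
        have := dist_triangle z y x
        linarith)
    (by
      rw [← had]
      simp only [hcutI]
      have h1 : t - (a * ρ) ^ 2 ≤ t - 2 * ρ ^ 2 := by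
        have h0 : (8 * ρ) ^ 2 ≤ (a * ρ) ^ 2 :=
          pow_le_pow_left₀ (by positivity) (mul_le_mul_of_nonneg_right ha8 hρ.le) 2
        have h00 : (8 * ρ) ^ 2 = 64 * ρ ^ 2 := by ring
        linarith
      have h2 : a * ρ ≤ a * r := mul_le_mul_of_nonneg_left (by linarith only [hρr, hr]) ha
      refine (hlint y (a * ρ) (t - 2 * ρ ^ 2) (by rw [mem_closedBall]; linarith only [hyx', hr200, hr])
        (mul_pos (by linarith only [ha8]) hρ) (by linarith only [h2, hr]) h1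
        (by linarith only [hρ20])).trans ?_
      apply ENNReal.ofReal_le_ofReal
      have h3 := mul_le_mul_of_nonneg_right hJ' hρ.le
      linarith only [h3])
    (by
      rw [← had]
      unfold DD
      simp only [hcutI]
      exact hD)
  rw [← hR] at key
  -- the scales
  have hsc : r / 2 ^ N ≤ ρ := by
    rw [hρd]
    unfold sc
    apply div_le_div_of_nonneg_left hr.le (by positivity)
    exact pow_le_pow_right₀ (by norm_num) (by omega)
  have hh0 : 0 < R / 2 ^ N / (64 * (K + 1)) * r := by positivity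
  have hRρ : 0 < R * ρ := by positivity
  have hhK : R / 2 ^ N / (64 * (K + 1)) * r ≤ R * ρ / (64 * (K + 1)) := by
    have h2 : R / 2 ^ N / (64 * (K + 1)) * r = R * (r / 2 ^ N) / (64 * (K + 1)) := by ring
    rw [h2]
    exact div_le_div_of_nonneg_right (mul_le_mul_of_nonneg_left hsc hR0.le) hK1.le
  have hhr : R / 2 ^ N / (64 * (K + 1)) * r ≤ R * ρ / 64 :=
    hhK.trans (div_le_div_of_nonneg_left hRρ.le (by norm_num) hK64)
  obtain ⟨d, hd⟩ : ∃ d, d = R / 2 ^ N / (64 * (K + 1)) * r := ⟨_, rfl⟩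
  rw [← hd] at hhr hhK hh0 ⊢
  have hhq : d ^ 2 ≤ (R * ρ) ^ 2 / (32 * (K + 1)) := by
    have h3 : d * d ≤ R * ρ * (R * ρ / (64 * (K + 1))) := by
      apply mul_le_mul _ hhK hh0.le hRρ.le
      linarith only [hhr, hRρ]
    have h4 : R * ρ * (R * ρ / (64 * (K + 1))) ≤ (R * ρ) ^ 2 / (32 * (K + 1)) := by
      have h5 : R * ρ * (R * ρ / (64 * (K + 1))) = (R * ρ) ^ 2 / (64 * (K + 1)) := by ring
      rw [h5]
      apply div_le_div_of_nonneg_left (by positivity) (by positivity)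
      linarith only [hK1]
    calc d ^ 2 = d * d := by ring
      _ ≤ _ := h3.trans h4
  intro τ hτ z hz n' i j
  have hτ1 : τ ∈ Ioc (t - (R * ρ) ^ 2 / (32 * (K + 1))) t := ⟨by linarith [hτ.1], hτ.2⟩
  have hz1 : z ∈ ball y (R * ρ / 32) := ball_subset_ball (by linarith) hz
  have hz2 : z ∈ ball b (7 / 8 * ρ₀) := by
    apply hball
    apply ball_subset_ball _ hz1
    have h1 : R * ρ ≤ 1 * ρ := mul_le_mul_of_nonneg_right hR1 hρ.le
    have h2 : 8 * ρ ≤ a * ρ := mul_le_mul_of_nonneg_right ha8 hρ.le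
    linarith only [h1, h2, hρ]
  have h1 := key τ hτ1 z hz1 n' i j
  rw [om_cutG hG hζG u τ hz2 n' i j] at h1
  rw [SQ_eq]
  refine (show SS n' (cur i j (u τ)) z ≤ _ from h1).trans ?_
  have hc0 : 0 < c := by linarith
  apply pow_le_pow_left₀ (by positivity)
  apply div_le_div_of_nonneg_left (by positivity) (by positivity)
  apply pow_le_pow_left₀ hh0.le
  linarith only [hhr, hRρ]

end Pool.Agent.H1CV
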