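import Pool.Agent.Q151.CC.Double
import Pool.Agent.Q67.VD.Alg
import Pool.Agent.Q85.VL.Defs

/-!
The monotonicity formula for the curves of a field without divergence: the measure `|w| dy` is a
one-dimensional varifold, its first variation is the curvature of the curves of `w`.
-/

set_option autoImplicit false

namespace Pool.Agent.H1CV

open MeasureTheory Set Metric Filter Topology
open scoped ContDiff
open H459R3.NS Pool.Agent.W268.NS Pool.Agent.Q67.VD Pool.Agent.Q85.CC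
open Pool.Agent.Q151.CC

/-- the derivative of `w` along `w` -/
noncomputable def ww (w : V → V) (y : V) : V := fderiv ℝ w y (w y)

/-- The density of the curvature of the curves of `w`: `|w × (w · ∇) w| / |w|²`, that is `|w|` times
the curvature of the curve through `y`. -/
noncomputable def kap (w : V → V) (y : V) : ℝ :=
  len (crossProduct (w y) (ww w y)) / len (w y) ^ 2

lemma lagr (w a z : V) : (w ⬝ᵥ w) * (a ⬝ᵥ z) - (w ⬝ᵥ z) * (w ⬝ᵥ a)
    = crossProduct w a ⬝ᵥ crossProduct w z := by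
  simp only [dot3, cross_apply]
  simp
  ring

lemma lagr2 (w z : V) : (w ⬝ᵥ z) ^ 2
    = (w ⬝ᵥ w) * (z ⬝ᵥ z) - crossProduct w z ⬝ᵥ crossProduct w z := by
  simp only [dot3, cross_apply]
  simp
  ring

lemma len_sq' (a : V) : len a ^ 2 = a ⬝ᵥ a := by
  rw [len, Real.sq_sqrt (dot_nn a)]

lemma dot_le_len' (a b : V) : |a ⬝ᵥ b| ≤ len a * len b := by
  have h := cs a b
  rw [← len_sq', ← len_sq', ← mul_pow] at h
  exact abs_le_of_sq_le_sq h (mul_nonneg (len_nonneg _) (len_nonneg _))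

lemma len_le_norm (a : V) : len a ≤ 2 * ‖a‖ := by
  refine abs_le_of_sq_le_sq' ?_ (by positivity) |>.2
  rw [len_sq', dot3]
  have h : ∀ i, a i * a i ≤ ‖a‖ ^ 2 := fun i => by
    have := norm_le_pi_norm a i
    rw [Real.norm_eq_abs] at this
    have h2 := abs_le.1 this
    nlinarith
  nlinarith [h 0, h 1, h 2, sq_nonneg ‖a‖]

lemma norm_le_len (a : V) : ‖a‖ ≤ len a := by
  rw [pi_norm_le_iff_of_nonneg (len_nonneg _)]
  intro i
  rw [Real.norm_eq_abs]
  exact abs_le_len a i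


/-! ### The identity -/

/-- the regularised length -/
noncomputable def md (d : ℝ) (a : V) : ℝ := √(a ⬝ᵥ a + d ^ 2)

lemma md_pos {d : ℝ} (hd : 0 < d) (a : V) : 0 < md d a :=
  Real.sqrt_pos.2 (by have := dot_nn a; positivity)

lemma md_sq (d : ℝ) (a : V) : md d a ^ 2 = a ⬝ᵥ a + d ^ 2 :=
  Real.sq_sqrt (by have := dot_nn a; positivity)

lemma len_le_md (d : ℝ) (a : V) : len a ≤ md d a :=
  Real.sqrt_le_sqrt (by nlinarith [sq_nonneg d])

/-- the test function -/
noncomputable def FF (w : V → V) (x : V) (P : ℝ → ℝ) (d : ℝ) (y : V) : ℝ :=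
  P ((y - x) ⬝ᵥ (y - x)) * (w y ⬝ᵥ (y - x)) / md d (w y)

lemma FF_c1 {w : V → V} (hw : ContDiff ℝ 1 w) (x : V) {P : ℝ → ℝ} (hP : ContDiff ℝ 1 P) {d : ℝ}
    (hd : 0 < d) : ContDiff ℝ 1 (FF w x P d) := by
  have hz : ∀ i : Fin 3, ContDiff ℝ 1 (fun y : V => (y - x) i) := fun i => by
    simp only [Pi.sub_apply]
    fun_prop
  have hwi : ∀ i : Fin 3, ContDiff ℝ 1 (fun y : V => w y i) := fun i => contDiff_pi.1 hw i
  have h1 : ContDiff ℝ 1 (fun y : V => (y - x) ⬝ᵥ (y - x)) := by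
    simp only [dot3]
    exact (((hz 0).mul (hz 0)).add ((hz 1).mul (hz 1))).add ((hz 2).mul (hz 2))
  have h2 : ContDiff ℝ 1 (fun y : V => w y ⬝ᵥ (y - x)) := by
    simp only [dot3]
    exact (((hwi 0).mul (hz 0)).add ((hwi 1).mul (hz 1))).add ((hwi 2).mul (hz 2))
  have h3 : ContDiff ℝ 1 (fun y : V => w y ⬝ᵥ w y + d ^ 2) := by
    simp only [dot3]
    exact ((((hwi 0).mul (hwi 0)).add ((hwi 1).mul (hwi 1))).add ((hwi 2).mul (hwi 2))).add
      contDiff_const
  have h4 : ContDiff ℝ 1 (fun y : V => md d (w y)) := by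
    refine h3.sqrt fun y => ?_
    have := dot_nn (w y)
    positivity
  exact ((hP.comp h1).mul h2).div h4 fun y => (md_pos hd _).ne'

lemma FF_deriv {w : V → V} (hw : ContDiff ℝ 1 w) (x : V) {P P' : ℝ → ℝ}
    (hP : ∀ q, HasDerivAt P (P' q) q) (hP1 : ContDiff ℝ 1 P) {d : ℝ} (hd : 0 < d) (y : V) :
    fderiv ℝ (FF w x P d) y (w y)
      = (2 * P' ((y - x) ⬝ᵥ (y - x)) * (w y ⬝ᵥ (y - x)) ^ 2
          + P ((y - x) ⬝ᵥ (y - x)) * (w y ⬝ᵥ w y)) / md d (w y)
        + P ((y - x) ⬝ᵥ (y - x)) * ((ww w y ⬝ᵥ (y - x)) * md d (w y) ^ 2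
          - (w y ⬝ᵥ (y - x)) * (w y ⬝ᵥ ww w y)) / md d (w y) ^ 3 := by
  have hF := (FF_c1 hw x hP1 hd).differentiable one_ne_zero y
  have hl : HasDerivAt (fun s : ℝ => y + s • w y) (w y) 0 := by
    simpa using ((hasDerivAt_id (0 : ℝ)).smul_const (w y)).const_add y
  have h0 : y + (0 : ℝ) • w y = y := by simp
  have h1 : HasDerivAt (fun s : ℝ => FF w x P d (y + s • w y)) (fderiv ℝ (FF w x P d) y (w y)) 0 := by
    have := hF.hasFDerivAt
    rw [← h0] at this
    have h2 := this.comp_hasDerivAt (0 : ℝ) hl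
    rw [h0] at h2
    exact h2
  have hwd : HasDerivAt (fun s : ℝ => w (y + s • w y)) (ww w y) 0 := by
    have h3 := (hw.differentiable one_ne_zero y).hasFDerivAt
    rw [← h0] at h3
    have h2 := h3.comp_hasDerivAt (0 : ℝ) hl
    rw [h0] at h2
    exact h2
  have hwi : ∀ i, HasDerivAt (fun s : ℝ => w (y + s • w y) i) (ww w y i) 0 :=
    fun i => hasDerivAt_pi.1 hwd i
  have hzi : ∀ i, HasDerivAt (fun s : ℝ => (y + s • w y - x) i) (w y i) 0 := fun i => by
    have := hasDerivAt_pi.1 (hl.sub_const x) i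
    exact this
  have a1 : HasDerivAt (fun s : ℝ => (y + s • w y - x) ⬝ᵥ (y + s • w y - x))
      (2 * (w y ⬝ᵥ (y - x))) 0 := by
    have := (((hzi 0).mul (hzi 0)).add ((hzi 1).mul (hzi 1))).add ((hzi 2).mul (hzi 2))
    refine (this.congr_deriv ?_).congr_of_eventuallyEq (Eventually.of_forall fun s => ?_)
    · simp only [dot3, h0]
      ring
    · simp only [dot3]
      rfl
  have a2 : HasDerivAt (fun s : ℝ => w (y + s • w y) ⬝ᵥ (y + s • w y - x))
      ((ww w y ⬝ᵥ (y - x)) + w y ⬝ᵥ w y) 0 := by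
    have := (((hwi 0).mul (hzi 0)).add ((hwi 1).mul (hzi 1))).add ((hwi 2).mul (hzi 2))
    refine (this.congr_deriv ?_).congr_of_eventuallyEq (Eventually.of_forall fun s => ?_)
    · simp only [dot3, h0]
      ring
    · simp only [dot3]
      rfl
  have a3 : HasDerivAt (fun s : ℝ => w (y + s • w y) ⬝ᵥ w (y + s • w y) + d ^ 2)
      (2 * (w y ⬝ᵥ ww w y)) 0 := by
    have := ((((hwi 0).mul (hwi 0)).add ((hwi 1).mul (hwi 1))).add ((hwi 2).mul (hwi 2))).add_const
      (d ^ 2)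
    refine (this.congr_deriv ?_).congr_of_eventuallyEq (Eventually.of_forall fun s => ?_)
    · simp only [dot3, h0]
      ring
    · simp only [dot3]
      rfl
  have hpos : w y ⬝ᵥ w y + d ^ 2 ≠ 0 := by
    have := dot_nn (w y)
    positivity
  have a4 : HasDerivAt (fun s : ℝ => md d (w (y + s • w y)))
      (2 * (w y ⬝ᵥ ww w y) / (2 * md d (w y))) 0 := by
    have := a3.sqrt (by rw [h0]; exact hpos)
    rw [h0] at this
    exact this
  have a5 : HasDerivAt (fun s : ℝ => P ((y + s • w y - x) ⬝ᵥ (y + s • w y - x)))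
      (P' ((y - x) ⬝ᵥ (y - x)) * (2 * (w y ⬝ᵥ (y - x)))) 0 := by
    have hq := hP ((y - x) ⬝ᵥ (y - x))
    have : HasDerivAt P (P' ((y - x) ⬝ᵥ (y - x)))
        ((fun s : ℝ => (y + s • w y - x) ⬝ᵥ (y + s • w y - x)) 0) := by
      simp only [zero_smul, add_zero]
      exact hq
    exact this.comp (0 : ℝ) a1
  have hm : md d (w y) ≠ 0 := (md_pos hd _).ne'
  have a6 := (a5.mul a2).div a4 (by rw [h0]; exact hm)
  simp only [h0] at a6
  have h5 := h1.unique a6
  rw [h5]
  simp only [Pi.mul_apply, h0]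
  field_simp
  ring

end Pool.Agent.H1CV
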