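import Pool.Agent.H1CV.Mon

/-!
The monotonicity formula: the identity for the regularised length, and the limit.
-/

set_option autoImplicit false

namespace Pool.Agent.H1CV

open MeasureTheory Set Metric Filter Topology
open scoped ContDiff
open H459R3.NS Pool.Agent.W268.NS Pool.Agent.Q67.VD Pool.Agent.Q85.CC
open Pool.Agent.Q151.CC

/-- the integrand for the regularised length -/
noncomputable def Id (w : V → V) (x : V) (P P' : ℝ → ℝ) (d : ℝ) (y : V) : ℝ :=
  (2 * P' ((y - x) ⬝ᵥ (y - x)) * (w y ⬝ᵥ (y - x)) ^ 2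
      + P ((y - x) ⬝ᵥ (y - x)) * (w y ⬝ᵥ w y)) / md d (w y)
    + P ((y - x) ⬝ᵥ (y - x)) * ((ww w y ⬝ᵥ (y - x)) * md d (w y) ^ 2
      - (w y ⬝ᵥ (y - x)) * (w y ⬝ᵥ ww w y)) / md d (w y) ^ 3

lemma md_zero (a : V) : md 0 a = len a := by
  unfold md len
  simp

lemma len_pos_of_ne {a : V} (h : a ≠ 0) : 0 < len a := by
  refine lt_of_le_of_ne (len_nonneg a) fun h0 => h ?_
  have h1 := norm_le_len a
  rw [← h0] at h1
  exact norm_le_zero_iff.1 h1

lemma ww_le (w : V → V) (y : V) : len (ww w y) ≤ 2 * ‖fderiv ℝ w y‖ * len (w y) := by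
  refine (len_le_norm _).trans ?_
  rw [mul_assoc]
  refine mul_le_mul_of_nonneg_left ?_ (by norm_num)
  refine ((fderiv ℝ w y).le_opNorm (w y)).trans ?_
  exact mul_le_mul_of_nonneg_left (norm_le_len _) (norm_nonneg _)

/-- the bound -/
noncomputable def Gb (w : V → V) (x : V) (P P' : ℝ → ℝ) (y : V) : ℝ :=
  (2 * |P' ((y - x) ⬝ᵥ (y - x))| * ((y - x) ⬝ᵥ (y - x)) + |P ((y - x) ⬝ᵥ (y - x))|) * len (w y)
    + |P ((y - x) ⬝ᵥ (y - x))| * (4 * ‖fderiv ℝ w y‖ * len (y - x))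

lemma Id_le (w : V → V) (x : V) (P P' : ℝ → ℝ) {d : ℝ} (hd : 0 < d) (y : V) :
    |Id w x P P' d y| ≤ Gb w x P P' y := by
  have hm := md_pos hd (w y)
  have hlm := len_le_md d (w y)
  have hl := len_nonneg (w y)
  obtain ⟨z, hz⟩ : ∃ z, z = y - x := ⟨_, rfl⟩
  unfold Id Gb
  rw [← hz]
  obtain ⟨q, hq⟩ : ∃ q, q = z ⬝ᵥ z := ⟨_, rfl⟩
  rw [← hq]
  have hq0 : 0 ≤ q := by rw [hq]; exact dot_nn z
  have h1 : |(2 * P' q * (w y ⬝ᵥ z) ^ 2 + P q * (w y ⬝ᵥ w y)) / md d (w y)|
      ≤ (2 * |P' q| * q + |P q|) * len (w y) := by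
    rw [abs_div, abs_of_pos hm, div_le_iff₀ hm]
    have e1 : (w y ⬝ᵥ z) ^ 2 ≤ len (w y) ^ 2 * q := by
      rw [len_sq', hq]
      exact cs _ _
    have e2 : w y ⬝ᵥ w y = len (w y) ^ 2 := (len_sq' _).symm
    rw [e2]
    calc |2 * P' q * (w y ⬝ᵥ z) ^ 2 + P q * len (w y) ^ 2|
        ≤ |2 * P' q * (w y ⬝ᵥ z) ^ 2| + |P q * len (w y) ^ 2| := abs_add_le _ _
      _ = 2 * |P' q| * (w y ⬝ᵥ z) ^ 2 + |P q| * len (w y) ^ 2 := by
        rw [abs_mul, abs_mul, abs_mul, abs_of_pos (two_pos (α := ℝ)), abs_of_nonneg (sq_nonneg (w y ⬝ᵥ z)),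
          abs_of_nonneg (sq_nonneg (len (w y)))]
      _ ≤ 2 * |P' q| * (len (w y) ^ 2 * q) + |P q| * len (w y) ^ 2 := by gcongr
      _ = (2 * |P' q| * q + |P q|) * len (w y) * len (w y) := by ring
      _ ≤ _ := by gcongr
  have h2 : |P q * ((ww w y ⬝ᵥ z) * md d (w y) ^ 2 - (w y ⬝ᵥ z) * (w y ⬝ᵥ ww w y))
      / md d (w y) ^ 3| ≤ |P q| * (4 * ‖fderiv ℝ w y‖ * len z) := by
    have hw := ww_le w y
    have hz0 := len_nonneg z
    have ha0 := len_nonneg (ww w y)
    have e1 := dot_le_len' (ww w y) z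
    have e2 := dot_le_len' (w y) z
    have e3 := dot_le_len' (w y) (ww w y)
    rw [mul_div_assoc, abs_mul]
    refine mul_le_mul_of_nonneg_left ?_ (abs_nonneg _)
    rw [abs_div, abs_of_pos (pow_pos hm 3), div_le_iff₀ (pow_pos hm 3)]
    have e4 : |(ww w y ⬝ᵥ z) * md d (w y) ^ 2 - (w y ⬝ᵥ z) * (w y ⬝ᵥ ww w y)|
        ≤ |ww w y ⬝ᵥ z| * md d (w y) ^ 2 + |w y ⬝ᵥ z| * |w y ⬝ᵥ ww w y| := by
      refine (abs_sub _ _).trans ?_
      rw [abs_mul, abs_mul, abs_of_pos (pow_pos hm 2)]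
    refine e4.trans ?_
    calc |ww w y ⬝ᵥ z| * md d (w y) ^ 2 + |w y ⬝ᵥ z| * |w y ⬝ᵥ ww w y|
        ≤ (len (ww w y) * len z) * md d (w y) ^ 2
          + (len (w y) * len z) * (len (w y) * len (ww w y)) := by gcongr
      _ ≤ (len (ww w y) * len z) * md d (w y) ^ 2
          + (md d (w y) * len z) * (md d (w y) * len (ww w y)) := by gcongr
      _ = 2 * len z * md d (w y) ^ 2 * len (ww w y) := by ring
      _ ≤ 2 * len z * md d (w y) ^ 2 * (2 * ‖fderiv ℝ w y‖ * len (w y)) := by gcongr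
      _ ≤ 2 * len z * md d (w y) ^ 2 * (2 * ‖fderiv ℝ w y‖ * md d (w y)) := by gcongr
      _ = _ := by ring
  exact (abs_add_le _ _).trans (add_le_add h1 h2)

lemma dot_norm (z : V) : ‖z‖ ^ 2 ≤ z ⬝ᵥ z := by
  rw [← len_sq']
  exact pow_le_pow_left₀ (norm_nonneg _) (norm_le_len z) 2

/-- conditions for the weight -/
structure Wt (P P' : ℝ → ℝ) (R : ℝ) : Prop where
  der : ∀ q, HasDerivAt P (P' q) q
  cont : Continuous P'
  zero : ∀ q, R ≤ q → P q = 0

lemma Wt.c1 {P P' : ℝ → ℝ} {R : ℝ} (h : Wt P P' R) : ContDiff ℝ 1 P := by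
  rw [contDiff_one_iff_deriv]
  refine ⟨fun q => (h.der q).differentiableAt, ?_⟩
  have : deriv P = P' := funext fun q => (h.der q).deriv
  rw [this]
  exact h.cont

lemma Wt.zero' {P P' : ℝ → ℝ} {R : ℝ} (h : Wt P P' R) {q : ℝ} (hq : R < q) : P' q = 0 := by
  have h1 : P =ᶠ[𝓝 q] fun _ => 0 := by
    filter_upwards [lt_mem_nhds hq] with q' hq'
    exact h.zero q' hq'.le
  have h2 : HasDerivAt P 0 q := (hasDerivAt_const q (0 : ℝ)).congr_of_eventuallyEq h1
  exact (h.der q).unique h2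

lemma out_lt {x y : V} {R : ℝ} (hy : y ∉ closedBall x √(max R 0)) : R < (y - x) ⬝ᵥ (y - x) := by
  rw [mem_closedBall, dist_eq_norm, not_le] at hy
  have h1 := dot_norm (y - x)
  have h2 : √(max R 0) ^ 2 < ‖y - x‖ ^ 2 := pow_lt_pow_left₀ hy (Real.sqrt_nonneg _) two_ne_zero
  rw [Real.sq_sqrt (le_max_right _ _)] at h2
  linarith [le_max_left R 0]

lemma Gb_int {w : V → V} (hw : ContDiff ℝ 1 w) (x : V) {P P' : ℝ → ℝ} {R : ℝ} (h : Wt P P' R) :
    Integrable (Gb w x P P') := by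
  have hz : Continuous fun y : V => y - x := by fun_prop
  have hq : Continuous fun y : V => (y - x) ⬝ᵥ (y - x) := by
    simp only [dot3, Pi.sub_apply]
    fun_prop
  have hlen : ∀ {g : V → V}, Continuous g → Continuous fun y => len (g y) := by
    intro g hg
    unfold len
    have : Continuous fun y => g y ⬝ᵥ g y := by
      simp only [dot3]
      fun_prop
    exact this.sqrt
  have hc : Continuous (Gb w x P P') := by
    unfold Gb
    have c1 := (h.cont.comp hq).abs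
    have c2 := (h.c1.continuous.comp hq).abs
    have c3 := hlen hw.continuous
    have c4 := hlen hz
    have c5 := (hw.continuous_fderiv one_ne_zero).norm
    exact (((continuous_const.mul c1).mul hq).add c2).mul c3 |>.add
      (c2.mul ((continuous_const.mul c5).mul c4))
  refine hc.integrable_of_hasCompactSupport ?_
  refine HasCompactSupport.intro (isCompact_closedBall x √(max R 0)) fun y hy => ?_
  have h1 := out_lt hy
  unfold Gb
  rw [h.zero _ h1.le, h.zero' h1]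
  simp

lemma FF_cs {w : V → V} (x : V) {P P' : ℝ → ℝ} {R : ℝ} (h : Wt P P' R) (d : ℝ) :
    HasCompactSupport (FF w x P d) := by
  refine HasCompactSupport.intro (isCompact_closedBall x √(max R 0)) fun y hy => ?_
  have h1 := out_lt hy
  unfold FF
  rw [h.zero _ h1.le]
  simp

lemma Id_lim (w : V → V) (x : V) (P P' : ℝ → ℝ) (y : V) :
    Tendsto (fun d => Id w x P P' d y) (𝓝[>] 0) (𝓝 (Id w x P P' 0 y)) := by
  by_cases h0 : w y = 0
  · have h1 : ∀ d, Id w x P P' d y = Id w x P P' 0 y := by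
      intro d
      have h2 : ww w y = 0 := by
        unfold ww
        rw [h0, map_zero]
      unfold Id
      rw [h2, h0]
      simp
    simp_rw [h1]
    exact tendsto_const_nhds
  · have hp : 0 < md 0 (w y) := by
      rw [md_zero]
      exact len_pos_of_ne h0
    have hc : Continuous fun d : ℝ => md d (w y) := by
      unfold md
      fun_prop
    have hca : ContinuousAt (fun d => Id w x P P' d y) 0 := by
      unfold Id
      refine ContinuousAt.add ?_ ?_
      · exact continuousAt_const.div hc.continuousAt hp.ne'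
      · refine ContinuousAt.div ?_ (hc.continuousAt.pow 3) (pow_ne_zero 3 hp.ne')
        exact continuousAt_const.mul ((continuousAt_const.mul (hc.continuousAt.pow 2)).sub
          continuousAt_const)
    exact hca.tendsto.mono_left nhdsWithin_le_nhds

theorem Id_zero {w : V → V} (hw : DF w) (x : V) {P P' : ℝ → ℝ} {R : ℝ} (h : Wt P P' R) :
    Integrable (Id w x P P' 0) ∧ ∫ y, Id w x P P' 0 y = 0 := by
  have hw1 : ContDiff ℝ 1 w := contDiff_pi.2 hw.smooth
  have hpos : ∀ n : ℕ, (0 : ℝ) < 1 / (n + 1) := fun n => by positivity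
  have hG := Gb_int hw1 x h
  have hmeas : ∀ n : ℕ, AEStronglyMeasurable (Id w x P P' (1 / ((n : ℝ) + 1))) := by
    intro n
    have e1 : Id w x P P' (1 / ((n : ℝ) + 1))
        = fun y => fderiv ℝ (FF w x P (1 / ((n : ℝ) + 1))) y (w y) := by
      funext y
      rw [FF_deriv hw1 x h.der h.c1 (hpos n)]
      rfl
    rw [e1]
    exact (((FF_c1 hw1 x h.c1 (hpos n)).continuous_fderiv one_ne_zero).clm_apply
      hw.cont).aestronglyMeasurable
  have hlim : ∀ y, Tendsto (fun n : ℕ => Id w x P P' (1 / ((n : ℝ) + 1)) y) atTop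
      (𝓝 (Id w x P P' 0 y)) := by
    intro y
    refine (Id_lim w x P P' y).comp ?_
    refine tendsto_nhdsWithin_iff.2 ⟨tendsto_one_div_add_atTop_nhds_zero_nat, ?_⟩
    exact Eventually.of_forall hpos
  have hle : ∀ (n : ℕ) (y : V), ‖Id w x P P' (1 / ((n : ℝ) + 1)) y‖ ≤ Gb w x P P' y := fun n y => by
    rw [Real.norm_eq_abs]
    exact Id_le w x P P' (hpos n) y
  refine ⟨?_, ?_⟩
  · refine hG.mono' (aestronglyMeasurable_of_tendsto_ae atTop hmeas (ae_of_all _ hlim)) ?_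
    refine ae_of_all _ fun y => ?_
    exact le_of_tendsto (hlim y).norm (Eventually.of_forall fun n => hle n y)
  · have h1 := tendsto_integral_of_dominated_convergence (Gb w x P P') hmeas hG
      (fun n => ae_of_all _ (hle n)) (ae_of_all _ hlim)
    have h2 : ∀ n : ℕ, ∫ y, Id w x P P' (1 / ((n : ℝ) + 1)) y = 0 := by
      intro n
      have h3 := div_int hw (FF_c1 hw1 x h.c1 (hpos n)) (FF_cs x h _)
      rw [← h3]
      refine integral_congr_ae (ae_of_all _ fun y => ?_)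
      show Id w x P P' _ y = fderiv ℝ (FF w x P (1 / ((n : ℝ) + 1))) y (w y)
      rw [FF_deriv hw1 x h.der h.c1 (hpos n)]
      rfl
    simp_rw [h2] at h1
    exact tendsto_nhds_unique h1 tendsto_const_nhds

end Pool.Agent.H1CV
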