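import Pool.Agent.H1CV.Mon2
import Pool.Agent.H2VL.Lb
import Pool.Agent.H2CV.Defs

/-!
The monotonicity formula with a general cut-off function, and the master inequality.
-/

set_option autoImplicit false

namespace Pool.Agent.H1CV

open MeasureTheory Set Metric Filter Topology
open scoped ContDiff
open H459R3.NS Pool.Agent.W268.NS Pool.Agent.Q67.VD Pool.Agent.Q85.CC
open Pool.Agent.Q151.CC

/-- the test function -/
noncomputable def FH (w : V → V) (φ : V → ℝ) (x : V) (ρ d : ℝ) (y : V) : ℝ :=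
  φ y * (w y ⬝ᵥ (y - x)) / (md ρ (y - x) * md d (w y))

lemma FH_c1 {w : V → V} (hw : ContDiff ℝ 1 w) {φ : V → ℝ} (hφ : ContDiff ℝ 1 φ) (x : V) {ρ d : ℝ}
    (hρ : 0 < ρ) (hd : 0 < d) : ContDiff ℝ 1 (FH w φ x ρ d) := by
  have hz : ∀ i : Fin 3, ContDiff ℝ 1 (fun y : V => (y - x) i) := fun i => by
    simp only [Pi.sub_apply]
    fun_prop
  have hwi : ∀ i : Fin 3, ContDiff ℝ 1 (fun y : V => w y i) := fun i => contDiff_pi.1 hw i
  have h1 : ContDiff ℝ 1 (fun y : V => (y - x) ⬝ᵥ (y - x) + ρ ^ 2) := by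
    simp only [dot3]
    exact ((((hz 0).mul (hz 0)).add ((hz 1).mul (hz 1))).add ((hz 2).mul (hz 2))).add
      contDiff_const
  have h2 : ContDiff ℝ 1 (fun y : V => w y ⬝ᵥ (y - x)) := by
    simp only [dot3]
    exact (((hwi 0).mul (hz 0)).add ((hwi 1).mul (hz 1))).add ((hwi 2).mul (hz 2))
  have h3 : ContDiff ℝ 1 (fun y : V => w y ⬝ᵥ w y + d ^ 2) := by
    simp only [dot3]
    exact ((((hwi 0).mul (hwi 0)).add ((hwi 1).mul (hwi 1))).add ((hwi 2).mul (hwi 2))).add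
      contDiff_const
  have h4 : ContDiff ℝ 1 (fun y : V => md d (w y)) := by
    refine h3.sqrt fun y => ?_
    have := dot_nn (w y)
    positivity
  have h5 : ContDiff ℝ 1 (fun y : V => md ρ (y - x)) := by
    refine h1.sqrt fun y => ?_
    have := dot_nn (y - x)
    positivity
  exact (hφ.mul h2).div (h5.mul h4) fun y => (mul_pos (md_pos hρ _) (md_pos hd _)).ne'

/-- the integrand -/
noncomputable def Jd (w : V → V) (φ : V → ℝ) (x : V) (ρ d : ℝ) (y : V) : ℝ :=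
  fderiv ℝ φ y (w y) * ((w y ⬝ᵥ (y - x)) / (md ρ (y - x) * md d (w y)))
    + φ y * (((ww w y ⬝ᵥ (y - x)) + w y ⬝ᵥ w y) / (md ρ (y - x) * md d (w y))
      - (w y ⬝ᵥ (y - x)) ^ 2 / (md ρ (y - x) ^ 3 * md d (w y))
      - (w y ⬝ᵥ (y - x)) * (w y ⬝ᵥ ww w y) / (md ρ (y - x) * md d (w y) ^ 3))

lemma FH_deriv {w : V → V} (hw : ContDiff ℝ 1 w) {φ : V → ℝ} (hφ : ContDiff ℝ 1 φ) (x : V)
    {ρ d : ℝ} (hρ : 0 < ρ) (hd : 0 < d) (y : V) :
    fderiv ℝ (FH w φ x ρ d) y (w y) = Jd w φ x ρ d y := by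
  have hF := (FH_c1 hw hφ x hρ hd).differentiable one_ne_zero y
  have hl : HasDerivAt (fun s : ℝ => y + s • w y) (w y) 0 := by
    simpa using ((hasDerivAt_id (0 : ℝ)).smul_const (w y)).const_add y
  have h0 : y + (0 : ℝ) • w y = y := by simp
  have h1 : HasDerivAt (fun s : ℝ => FH w φ x ρ d (y + s • w y))
      (fderiv ℝ (FH w φ x ρ d) y (w y)) 0 := by
    have := hF.hasFDerivAt
    rw [← h0] at this
    have h2 := this.comp_hasDerivAt (0 : ℝ) hl
    rw [h0] at h2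
    exact h2
  have hφd : HasDerivAt (fun s : ℝ => φ (y + s • w y)) (fderiv ℝ φ y (w y)) 0 := by
    have := (hφ.differentiable one_ne_zero y).hasFDerivAt
    rw [← h0] at this
    have h2 := this.comp_hasDerivAt (0 : ℝ) hl
    rw [h0] at h2
    exact h2
  have hwd : HasDerivAt (fun s : ℝ => w (y + s • w y)) (ww w y) 0 := by
    have h3 := (hw.differentiable one_ne_zero y).hasFDerivAt
    rw [← h0] at h3
    have h2 := h3.comp_hasDerivAt (0 : ℝ) hl
    rw [h0] at h2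
    exact h2
  have hwi : ∀ i, HasDerivAt (fun s : ℝ => w (y + s • w y) i) (ww w y i) 0 :=
    fun i => hasDerivAt_pi.1 hwd i
  have hzi : ∀ i, HasDerivAt (fun s : ℝ => (y + s • w y - x) i) (w y i) 0 := fun i => by
    have := hasDerivAt_pi.1 (hl.sub_const x) i
    exact this
  have a1 : HasDerivAt (fun s : ℝ => (y + s • w y - x) ⬝ᵥ (y + s • w y - x) + ρ ^ 2)
      (2 * (w y ⬝ᵥ (y - x))) 0 := by
    have := ((((hzi 0).mul (hzi 0)).add ((hzi 1).mul (hzi 1))).add ((hzi 2).mul (hzi 2))).add_const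
      (ρ ^ 2)
    refine (this.congr_deriv ?_).congr_of_eventuallyEq (Eventually.of_forall fun s => ?_)
    · simp only [dot3, h0]
      ring
    · simp only [dot3]
      rfl
  have a2 : HasDerivAt (fun s : ℝ => w (y + s • w y) ⬝ᵥ (y + s • w y - x))
      ((ww w y ⬝ᵥ (y - x)) + w y ⬝ᵥ w y) 0 := by
    have := (((hwi 0).mul (hzi 0)).add ((hwi 1).mul (hzi 1))).add ((hwi 2).mul (hzi 2))
    refine (this.congr_deriv ?_).congr_of_eventuallyEq (Eventually.of_forall fun s => ?_)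
    · simp only [dot3, h0]
      ring
    · simp only [dot3]
      rfl
  have a3 : HasDerivAt (fun s : ℝ => w (y + s • w y) ⬝ᵥ w (y + s • w y) + d ^ 2)
      (2 * (w y ⬝ᵥ ww w y)) 0 := by
    have := ((((hwi 0).mul (hwi 0)).add ((hwi 1).mul (hwi 1))).add ((hwi 2).mul (hwi 2))).add_const
      (d ^ 2)
    refine (this.congr_deriv ?_).congr_of_eventuallyEq (Eventually.of_forall fun s => ?_)
    · simp only [dot3, h0]
      ring
    · simp only [dot3]
      rfl
  have hpos : w y ⬝ᵥ w y + d ^ 2 ≠ 0 := by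
    have := dot_nn (w y)
    positivity
  have hpos2 : (y - x) ⬝ᵥ (y - x) + ρ ^ 2 ≠ 0 := by
    have := dot_nn (y - x)
    positivity
  have a4 : HasDerivAt (fun s : ℝ => md d (w (y + s • w y)))
      (2 * (w y ⬝ᵥ ww w y) / (2 * md d (w y))) 0 := by
    have := a3.sqrt (by rw [h0]; exact hpos)
    rw [h0] at this
    exact this
  have a5 : HasDerivAt (fun s : ℝ => md ρ (y + s • w y - x))
      (2 * (w y ⬝ᵥ (y - x)) / (2 * md ρ (y - x))) 0 := by
    have := a1.sqrt (by rw [h0]; exact hpos2)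
    rw [h0] at this
    exact this
  have hm : md d (w y) ≠ 0 := (md_pos hd _).ne'
  have hN : md ρ (y - x) ≠ 0 := (md_pos hρ _).ne'
  have a6 := (hφd.mul a2).div (a5.mul a4) (by
    show md ρ (y + (0 : ℝ) • w y - x) * md d (w (y + (0 : ℝ) • w y)) ≠ 0
    rw [h0]
    exact mul_ne_zero hN hm)
  have a7 : HasDerivAt (fun s : ℝ => FH w φ x ρ d (y + s • w y)) _ 0 := a6
  have h5 := h1.unique a7
  rw [h5]
  simp only [Pi.mul_apply, h0]
  unfold Jd
  field_simp
  ring

/-- the bound -/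
noncomputable def Jb (w : V → V) (φ : V → ℝ) (ρ : ℝ) (y : V) : ℝ :=
  ‖fderiv ℝ φ y‖ * len (w y) + |φ y| * (4 * ‖fderiv ℝ w y‖ + 2 * len (w y) / ρ)

lemma Jd_le (w : V → V) (φ : V → ℝ) (x : V) {ρ d : ℝ} (hρ : 0 < ρ) (hd : 0 < d) (y : V) :
    |Jd w φ x ρ d y| ≤ Jb w φ ρ y := by
  have hm := md_pos hd (w y)
  have hlm := len_le_md d (w y)
  have hl := len_nonneg (w y)
  have hN := md_pos hρ (y - x)
  have hzN := len_le_md ρ (y - x)
  have hz0 := len_nonneg (y - x)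
  have hρN : ρ ≤ md ρ (y - x) := by
    unfold md
    rw [← Real.sqrt_sq hρ.le]
    apply Real.sqrt_le_sqrt
    have := dot_nn (y - x)
    rw [Real.sqrt_sq hρ.le]
    linarith
  have hww := ww_le w y
  have ha0 := len_nonneg (ww w y)
  have hD0 := norm_nonneg (fderiv ℝ w y)
  have e1 := dot_le_len' (w y) (y - x)
  have e2 := dot_le_len' (ww w y) (y - x)
  have e3 := dot_le_len' (w y) (ww w y)
  unfold Jd Jb
  obtain ⟨m, hmd⟩ : ∃ m, m = md d (w y) := ⟨_, rfl⟩
  obtain ⟨N, hNd⟩ : ∃ N, N = md ρ (y - x) := ⟨_, rfl⟩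
  obtain ⟨l, hld⟩ : ∃ l, l = len (w y) := ⟨_, rfl⟩
  obtain ⟨z, hzd⟩ : ∃ z, z = len (y - x) := ⟨_, rfl⟩
  obtain ⟨a, had⟩ : ∃ a, a = len (ww w y) := ⟨_, rfl⟩
  obtain ⟨D, hDd⟩ : ∃ D, D = ‖fderiv ℝ w y‖ := ⟨_, rfl⟩
  rw [← hmd] at hm hlm ⊢
  rw [← hNd] at hN hzN hρN ⊢
  rw [← hld] at hl hlm hww e1 e3 ⊢
  rw [← hzd] at hzN hz0 e1 e2
  rw [← had] at hww ha0 e2 e3
  rw [← hDd] at hww hD0 ⊢
  have hNm : 0 < N * m := mul_pos hN hm
  have ham : a ≤ 2 * D * m := hww.trans (mul_le_mul_of_nonneg_left hlm (by positivity))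
  -- the four terms
  have t1 : |(w y ⬝ᵥ (y - x)) / (N * m)| ≤ 1 := by
    rw [abs_div, abs_of_pos hNm, div_le_one hNm]
    refine e1.trans ?_
    rw [mul_comm N m]
    exact mul_le_mul hlm hzN hz0 hm.le
  have t2 : |((ww w y ⬝ᵥ (y - x)) + w y ⬝ᵥ w y) / (N * m)| ≤ 2 * D + l / ρ := by
    rw [abs_div, abs_of_pos hNm, div_le_iff₀ hNm]
    have h1 : |w y ⬝ᵥ w y| = l ^ 2 := by
      rw [hld, len_sq', abs_of_nonneg (dot_nn _)]
    refine (abs_add_le _ _).trans ?_
    rw [h1, add_mul]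
    apply add_le_add
    · refine e2.trans ?_
      calc a * z ≤ (2 * D * m) * N := mul_le_mul ham hzN hz0 (by positivity)
        _ = 2 * D * (N * m) := by ring
    · rw [div_mul_eq_mul_div, le_div_iff₀ hρ]
      calc l ^ 2 * ρ = l * (ρ * l) := by ring
        _ ≤ l * (N * m) := mul_le_mul_of_nonneg_left (mul_le_mul hρN hlm hl hN.le) hl
  have t3 : |(w y ⬝ᵥ (y - x)) ^ 2 / (N ^ 3 * m)| ≤ l / ρ := by
    have hNm3 : 0 < N ^ 3 * m := by positivity
    rw [abs_div, abs_of_pos hNm3, div_le_iff₀ hNm3, abs_pow]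
    have h1 : |w y ⬝ᵥ (y - x)| ^ 2 ≤ (l * z) ^ 2 := pow_le_pow_left₀ (abs_nonneg _) e1 2
    refine h1.trans ?_
    rw [div_mul_eq_mul_div, le_div_iff₀ hρ]
    calc (l * z) ^ 2 * ρ = l * (l * (z ^ 2 * ρ)) := by ring
      _ ≤ l * (m * (N ^ 2 * N)) := by
          apply mul_le_mul_of_nonneg_left _ hl
          apply mul_le_mul hlm _ (by positivity) hm.le
          exact mul_le_mul (pow_le_pow_left₀ hz0 hzN 2) hρN hρ.le (by positivity)
      _ = _ := by ring
  have t4 : |(w y ⬝ᵥ (y - x)) * (w y ⬝ᵥ ww w y) / (N * m ^ 3)| ≤ 2 * D := by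
    have hNm3 : 0 < N * m ^ 3 := by positivity
    rw [abs_div, abs_of_pos hNm3, div_le_iff₀ hNm3, abs_mul]
    calc |w y ⬝ᵥ (y - x)| * |w y ⬝ᵥ ww w y| ≤ (l * z) * (l * a) :=
          mul_le_mul e1 e3 (abs_nonneg _) (by positivity)
      _ ≤ (m * N) * (m * (2 * D * m)) := by gcongr
      _ = _ := by ring
  refine (abs_add_le _ _).trans (add_le_add ?_ ?_)
  · rw [abs_mul]
    have h1 : |fderiv ℝ φ y (w y)| ≤ ‖fderiv ℝ φ y‖ * l := by
      have h2 := (fderiv ℝ φ y).le_opNorm (w y)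
      rw [Real.norm_eq_abs] at h2
      refine h2.trans (mul_le_mul_of_nonneg_left ?_ (norm_nonneg _))
      rw [hld]
      exact norm_le_len _
    calc |fderiv ℝ φ y (w y)| * |(w y ⬝ᵥ (y - x)) / (N * m)|
        ≤ (‖fderiv ℝ φ y‖ * l) * 1 := mul_le_mul h1 t1 (abs_nonneg _) (by positivity)
      _ = _ := mul_one _
  · rw [abs_mul]
    apply mul_le_mul_of_nonneg_left _ (abs_nonneg _)
    refine (abs_sub _ _).trans ?_
    have h3 := abs_sub (((ww w y ⬝ᵥ (y - x)) + w y ⬝ᵥ w y) / (N * m))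
      ((w y ⬝ᵥ (y - x)) ^ 2 / (N ^ 3 * m))
    have h4 : 2 * l / ρ = l / ρ + l / ρ := by ring
    rw [h4]
    linarith

lemma len_cont {g : V → V} (hg : Continuous g) : Continuous fun y => len (g y) := by
  unfold len
  have : Continuous fun y => g y ⬝ᵥ g y := by
    simp only [dot3]
    fun_prop
  exact this.sqrt

lemma Jb_int {w : V → V} (hw : ContDiff ℝ 1 w) {φ : V → ℝ} (hφ : ContDiff ℝ 1 φ)
    (hc : HasCompactSupport φ) (ρ : ℝ) : Integrable (Jb w φ ρ) := by
  have c1 := len_cont hw.continuous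
  have c2 := (hw.continuous_fderiv one_ne_zero).norm
  have c3 := (hφ.continuous_fderiv one_ne_zero).norm
  have i1 : Integrable (fun y => ‖fderiv ℝ φ y‖ * len (w y)) :=
    (c3.mul c1).integrable_of_hasCompactSupport (hc.fderiv (𝕜 := ℝ)).norm.mul_right
  have i2 : Integrable (fun y => |φ y| * (4 * ‖fderiv ℝ w y‖ + 2 * len (w y) / ρ)) :=
    (hφ.continuous.abs.mul ((continuous_const.mul c2).add
      ((continuous_const.mul c1).div_const ρ))).integrable_of_hasCompactSupport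
        (hc.norm.mul_right)
  exact i1.add i2

lemma Jd_lim (w : V → V) (φ : V → ℝ) (x : V) {ρ : ℝ} (hρ : 0 < ρ) (y : V) :
    Tendsto (fun d => Jd w φ x ρ d y) (𝓝[>] 0) (𝓝 (Jd w φ x ρ 0 y)) := by
  by_cases h0 : w y = 0
  · have h1 : ∀ d, Jd w φ x ρ d y = Jd w φ x ρ 0 y := by
      intro d
      have h2 : ww w y = 0 := by
        unfold ww
        rw [h0, map_zero]
      unfold Jd
      rw [h2, h0]
      simp
    simp_rw [h1]
    exact tendsto_const_nhds
  · have hp : 0 < md 0 (w y) := by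
      rw [md_zero]
      exact len_pos_of_ne h0
    have hc : Continuous fun d : ℝ => md d (w y) := by
      unfold md
      fun_prop
    have hN := (md_pos hρ (y - x)).ne'
    have hca : ContinuousAt (fun d => Jd w φ x ρ d y) 0 := by
      unfold Jd
      refine ContinuousAt.add ?_ ?_
      · refine continuousAt_const.mul (continuousAt_const.div
          (continuousAt_const.mul hc.continuousAt) (mul_ne_zero hN hp.ne'))
      · refine continuousAt_const.mul (((continuousAt_const.div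
          (continuousAt_const.mul hc.continuousAt) (mul_ne_zero hN hp.ne')).sub
          (continuousAt_const.div (continuousAt_const.mul hc.continuousAt)
            (mul_ne_zero (pow_ne_zero 3 hN) hp.ne'))).sub
          (continuousAt_const.div (continuousAt_const.mul (hc.continuousAt.pow 3))
            (mul_ne_zero hN (pow_ne_zero 3 hp.ne'))))
    exact hca.tendsto.mono_left nhdsWithin_le_nhds

theorem Jd_zero {w : V → V} (hw : DF w) {φ : V → ℝ} (hφ : ContDiff ℝ 1 φ)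
    (hc : HasCompactSupport φ) (x : V) {ρ : ℝ} (hρ : 0 < ρ) :
    Integrable (Jd w φ x ρ 0) ∧ ∫ y, Jd w φ x ρ 0 y = 0 := by
  have hw1 : ContDiff ℝ 1 w := contDiff_pi.2 hw.smooth
  have hpos : ∀ n : ℕ, (0 : ℝ) < 1 / (n + 1) := fun n => by positivity
  have hG := Jb_int hw1 hφ hc ρ
  have hmeas : ∀ n : ℕ, AEStronglyMeasurable (Jd w φ x ρ (1 / ((n : ℝ) + 1))) := by
    intro n
    have e1 : Jd w φ x ρ (1 / ((n : ℝ) + 1))
        = fun y => fderiv ℝ (FH w φ x ρ (1 / ((n : ℝ) + 1))) y (w y) := by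
      funext y
      rw [FH_deriv hw1 hφ x hρ (hpos n)]
    rw [e1]
    exact (((FH_c1 hw1 hφ x hρ (hpos n)).continuous_fderiv one_ne_zero).clm_apply
      hw.cont).aestronglyMeasurable
  have hlim : ∀ y, Tendsto (fun n : ℕ => Jd w φ x ρ (1 / ((n : ℝ) + 1)) y) atTop
      (𝓝 (Jd w φ x ρ 0 y)) := by
    intro y
    refine (Jd_lim w φ x hρ y).comp ?_
    refine tendsto_nhdsWithin_iff.2 ⟨tendsto_one_div_add_atTop_nhds_zero_nat, ?_⟩
    exact Eventually.of_forall hpos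
  have hle : ∀ (n : ℕ) (y : V), ‖Jd w φ x ρ (1 / ((n : ℝ) + 1)) y‖ ≤ Jb w φ ρ y := fun n y => by
    rw [Real.norm_eq_abs]
    exact Jd_le w φ x hρ (hpos n) y
  refine ⟨?_, ?_⟩
  · refine hG.mono' (aestronglyMeasurable_of_tendsto_ae atTop hmeas (ae_of_all _ hlim)) ?_
    refine ae_of_all _ fun y => ?_
    exact le_of_tendsto (hlim y).norm (Eventually.of_forall fun n => hle n y)
  · have h1 := tendsto_integral_of_dominated_convergence (Jb w φ ρ) hmeas hG
      (fun n => ae_of_all _ (hle n)) (ae_of_all _ hlim)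
    have h2 : ∀ n : ℕ, ∫ y, Jd w φ x ρ (1 / ((n : ℝ) + 1)) y = 0 := by
      intro n
      have hcs : HasCompactSupport (FH w φ x ρ (1 / ((n : ℝ) + 1))) := by
        have e : FH w φ x ρ (1 / ((n : ℝ) + 1)) = fun y => φ y * ((w y ⬝ᵥ (y - x))
            / (md ρ (y - x) * md (1 / ((n : ℝ) + 1)) (w y))) := by
          funext y
          unfold FH
          ring
        rw [e]
        exact hc.mul_right
      have h3 := div_int hw (FH_c1 hw1 hφ x hρ (hpos n)) hcs
      rw [← h3]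
      refine integral_congr_ae (ae_of_all _ fun y => ?_)
      exact (FH_deriv hw1 hφ x hρ (hpos n) y).symm
    simp_rw [h2] at h1
    exact tendsto_nhds_unique h1 tendsto_const_nhds

end Pool.Agent.H1CV
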