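import Pool.Agent.H1CV.Mon3

/-!
The master inequality for the curves of a field without divergence.
-/

set_option autoImplicit false

namespace Pool.Agent.H1CV

open MeasureTheory Set Metric Filter Topology
open scoped ContDiff
open H459R3.NS Pool.Agent.W268.NS Pool.Agent.Q67.VD Pool.Agent.Q85.CC
open Pool.Agent.Q151.CC
open Pool.Agent.Q85.VL (Shell)
open Pool.Agent.H2VL (chi chi_smooth chi_nonneg chi_le_one chi_zero chi_one chi_fd chi_fd_zero)

/-- the density -/
noncomputable def dn (w : V → V) (x : V) (ρ : ℝ) (y : V) : ℝ :=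
  (ρ ^ 2 * len (w y) + len (crossProduct (y - x) (w y)) ^ 2 / len (w y)) / md ρ (y - x) ^ 3

lemma len_cross_le (a b : V) : len (crossProduct a b) ≤ len a * len b := by
  have h := lagr2 a b
  have h1 : len (crossProduct a b) ^ 2 ≤ (len a * len b) ^ 2 := by
    rw [mul_pow, len_sq', len_sq', len_sq']
    nlinarith [sq_nonneg (a ⬝ᵥ b)]
  exact (abs_le_of_sq_le_sq' h1 (mul_nonneg (len_nonneg _) (len_nonneg _))).2

lemma len_cross_comm (a b : V) : len (crossProduct a b) = len (crossProduct b a) := by
  unfold len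
  congr 1
  simp only [dot3, cross_apply]
  simp
  ring

lemma dn_nonneg (w : V → V) (x : V) {ρ : ℝ} (hρ : 0 < ρ) (y : V) : 0 ≤ dn w x ρ y := by
  have := len_nonneg (w y)
  have := md_pos hρ (y - x)
  unfold dn
  positivity

lemma kap_nonneg (w : V → V) (y : V) : 0 ≤ kap w y := div_nonneg (len_nonneg _) (sq_nonneg _)

lemma kap_le (w : V → V) (y : V) : kap w y ≤ 2 * ‖fderiv ℝ w y‖ := by
  unfold kap
  have h1 := len_cross_le (w y) (ww w y)
  have h2 := ww_le w y
  have h3 := len_nonneg (w y)
  rcases eq_or_lt_of_le h3 with h | h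
  · rw [← h]
    simp
  · rw [div_le_iff₀ (by positivity)]
    calc _ ≤ len (w y) * len (ww w y) := h1
      _ ≤ len (w y) * (2 * ‖fderiv ℝ w y‖ * len (w y)) := mul_le_mul_of_nonneg_left h2 h3
      _ = _ := by ring

/-- The pointwise inequality. -/
lemma dn_pt (w : V → V) {φ : V → ℝ} (x : V) {ρ : ℝ} (hρ : 0 < ρ) (y : V) (hφ : 0 ≤ φ y) :
    φ y * dn w x ρ y ≤ Jd w φ x ρ 0 y + φ y * kap w y + |fderiv ℝ φ y (w y)| := by
  by_cases h0 : w y = 0
  · have h1 : ww w y = 0 := by
      unfold ww
      rw [h0, map_zero]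
    have h2 : dn w x ρ y = 0 := by
      unfold dn
      rw [h0]
      simp [len]
    have h3 : Jd w φ x ρ 0 y = 0 := by
      unfold Jd
      rw [h1, h0]
      simp
    rw [h2, h3, mul_zero]
    have := kap_nonneg w y
    positivity
  · have hm : 0 < len (w y) := len_pos_of_ne h0
    have hN := md_pos hρ (y - x)
    have hN2 := md_sq ρ (y - x)
    have hzN := len_le_md ρ (y - x)
    have hz0 := len_nonneg (y - x)
    have hl1 := lagr (w y) (ww w y) (y - x)
    have hl2 := lagr2 (w y) (y - x)
    have hc : crossProduct (w y) (y - x) ⬝ᵥ crossProduct (w y) (y - x)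
        = len (crossProduct (y - x) (w y)) ^ 2 := by
      rw [len_cross_comm, len_sq']
    have hX : |crossProduct (w y) (ww w y) ⬝ᵥ crossProduct (w y) (y - x)|
        ≤ kap w y * len (w y) ^ 3 * md ρ (y - x) := by
      refine (dot_le_len' _ _).trans ?_
      have h1 : len (crossProduct (w y) (ww w y)) = kap w y * len (w y) ^ 2 := by
        unfold kap
        field_simp
      rw [h1]
      have h2 := len_cross_le (w y) (y - x)
      have h3 := kap_nonneg w y
      calc kap w y * len (w y) ^ 2 * len (crossProduct (w y) (y - x))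
          ≤ kap w y * len (w y) ^ 2 * (len (w y) * md ρ (y - x)) := by
            apply mul_le_mul_of_nonneg_left _ (by positivity)
            exact h2.trans (mul_le_mul_of_nonneg_left hzN hm.le)
        _ = _ := by ring
    have e1 := dot_le_len' (w y) (y - x)
    rw [← len_sq' (w y)] at hl1 hl2
    unfold Jd
    rw [md_zero]
    rw [hc] at hl2
    unfold dn
    obtain ⟨m, hmd⟩ : ∃ m, m = len (w y) := ⟨_, rfl⟩
    obtain ⟨N, hNd⟩ : ∃ N, N = md ρ (y - x) := ⟨_, rfl⟩
    obtain ⟨k, hkd⟩ : ∃ k, k = kap w y := ⟨_, rfl⟩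
    obtain ⟨X, hXd⟩ : ∃ X, X = crossProduct (w y) (ww w y) ⬝ᵥ crossProduct (w y) (y - x) := ⟨_, rfl⟩
    obtain ⟨p, hpd⟩ : ∃ p, p = w y ⬝ᵥ (y - x) := ⟨_, rfl⟩
    obtain ⟨b, hbd⟩ : ∃ b, b = ww w y ⬝ᵥ (y - x) := ⟨_, rfl⟩
    obtain ⟨e, hed⟩ : ∃ e, e = w y ⬝ᵥ ww w y := ⟨_, rfl⟩
    obtain ⟨c, hcd⟩ : ∃ c, c = len (crossProduct (y - x) (w y)) := ⟨_, rfl⟩
    obtain ⟨q, hqd⟩ : ∃ q, q = (y - x) ⬝ᵥ (y - x) := ⟨_, rfl⟩
    obtain ⟨l, hld⟩ : ∃ l, l = len (y - x) := ⟨_, rfl⟩
    obtain ⟨f, hfd⟩ : ∃ f, f = fderiv ℝ φ y (w y) := ⟨_, rfl⟩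
    have hww : w y ⬝ᵥ w y = m ^ 2 := by rw [hmd, len_sq']
    rw [hww]
    rw [← hmd] at hm hX hl1 hl2 e1 ⊢
    rw [← hNd] at hN hN2 hzN hX ⊢
    rw [← hkd] at hX ⊢
    rw [← hXd] at hX hl1
    rw [← hpd] at hl1 hl2 e1 ⊢
    rw [← hbd] at hl1 ⊢
    rw [← hed] at hl1 ⊢
    rw [← hcd] at hl2 ⊢
    rw [← hqd] at hN2 hl2
    rw [← hld] at hz0 hzN e1
    rw [← hfd]
    have key : (b + m ^ 2) / (N * m) - p ^ 2 / (N ^ 3 * m) - p * e / (N * m ^ 3)
        = (ρ ^ 2 * m + c ^ 2 / m) / N ^ 3 + X / (N * m ^ 3) := by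
      have h1 : X = m ^ 2 * b - p * e := by linarith
      have h2 : c ^ 2 = m ^ 2 * q - p ^ 2 := by linarith
      have h3 : ρ ^ 2 = N ^ 2 - q := by linarith
      rw [h1, h2, h3]
      field_simp
      ring
    rw [key]
    have hXN : |X / (N * m ^ 3)| ≤ k := by
      have : 0 < N * m ^ 3 := by positivity
      rw [abs_div, abs_of_pos this, div_le_iff₀ this]
      linarith
    have hf : |f * (p / (N * m))| ≤ |f| := by
      rw [abs_mul]
      apply mul_le_of_le_one_right (abs_nonneg _)
      rw [abs_div, abs_of_pos (mul_pos hN hm), div_le_one (mul_pos hN hm)]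
      refine e1.trans ?_
      rw [mul_comm N m]
      exact mul_le_mul_of_nonneg_left hzN hm.le
    have h5 := (abs_le.1 hXN).1
    have h6 := (abs_le.1 hf).1
    have h7 : φ y * (-k) ≤ φ y * (X / (N * m ^ 3)) := mul_le_mul_of_nonneg_left h5 hφ
    rw [mul_add]
    linarith

/-! ### Integrability -/

lemma kap_meas {w : V → V} (hw : ContDiff ℝ 1 w) : Measurable (kap w) := by
  have h1 : Continuous (ww w) := (hw.continuous_fderiv one_ne_zero).clm_apply hw.continuous
  have h2 : Continuous fun y => crossProduct (w y) (ww w y) := by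
    have hwi : ∀ i : Fin 3, Continuous fun y => w y i := fun i =>
      (continuous_apply i).comp hw.continuous
    have hvi : ∀ i : Fin 3, Continuous fun y => ww w y i := fun i => (continuous_apply i).comp h1
    refine continuous_pi fun i => ?_
    simp only [cross_apply]
    fin_cases i <;> simp <;> fun_prop
  unfold kap
  exact (len_cont h2).measurable.div ((len_cont hw.continuous).pow 2).measurable

lemma kap_intOn {w : V → V} (hw : ContDiff ℝ 1 w) (x : V) (R : ℝ) :
    IntegrableOn (kap w) (closedBall x R) := by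
  have h1 : IntegrableOn (fun y => 2 * ‖fderiv ℝ w y‖) (closedBall x R) :=
    (continuous_const.mul (hw.continuous_fderiv one_ne_zero).norm).continuousOn.integrableOn_compact
      (isCompact_closedBall _ _)
  refine h1.mono' (kap_meas hw).aestronglyMeasurable (ae_of_all _ fun y => ?_)
  rw [Real.norm_eq_abs, abs_of_nonneg (kap_nonneg w y)]
  exact kap_le w y

lemma dn_le (w : V → V) (x : V) {ρ : ℝ} (hρ : 0 < ρ) (y : V) : dn w x ρ y ≤ len (w y) / ρ := by
  have hN := md_pos hρ (y - x)
  have hN2 := md_sq ρ (y - x)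
  have hl := len_nonneg (w y)
  have hρN : ρ ≤ md ρ (y - x) := by
    have := dot_nn (y - x)
    nlinarith
  have h1 : len (crossProduct (y - x) (w y)) ^ 2 / len (w y) ≤ len (w y) * ((y - x) ⬝ᵥ (y - x)) := by
    rcases eq_or_lt_of_le hl with h | h
    · rw [← h]
      simp
    · rw [div_le_iff₀ h]
      have h2 := len_cross_le (y - x) (w y)
      have h3 := pow_le_pow_left₀ (len_nonneg _) h2 2
      rw [mul_pow, len_sq' (y - x)] at h3
      refine h3.trans (le_of_eq ?_)
      ring
  unfold dn
  rw [div_le_div_iff₀ (by positivity) hρ]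
  have h4 : (ρ ^ 2 * len (w y) + len (crossProduct (y - x) (w y)) ^ 2 / len (w y))
      ≤ len (w y) * md ρ (y - x) ^ 2 := by
    rw [hN2]
    linarith
  calc _ ≤ len (w y) * md ρ (y - x) ^ 2 * ρ := mul_le_mul_of_nonneg_right h4 hρ.le
    _ ≤ len (w y) * md ρ (y - x) ^ 2 * md ρ (y - x) :=
        mul_le_mul_of_nonneg_left hρN (by positivity)
    _ = _ := by ring

lemma dn_meas {w : V → V} (hw : Continuous w) (x : V) {ρ : ℝ} : Measurable (dn w x ρ) := by
  have h2 : Continuous fun y => crossProduct (y - x) (w y) := by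
    have hwi : ∀ i : Fin 3, Continuous fun y => w y i := fun i => (continuous_apply i).comp hw
    refine continuous_pi fun i => ?_
    simp only [cross_apply]
    fin_cases i <;> simp <;> fun_prop
  have h3 : Continuous fun y : V => md ρ (y - x) := by
    have h4 : Continuous fun y : V => (y - x) ⬝ᵥ (y - x) + ρ ^ 2 := by
      simp only [dot3, Pi.sub_apply]
      fun_prop
    exact h4.sqrt
  have h5 := (len_cont hw).measurable
  have h6 := (len_cont h2).measurable
  unfold dn
  exact (((measurable_const.mul h5).add ((h6.pow_const 2).div h5))).div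
    (h3.measurable.pow_const 3)

lemma chi_cs {x : V} {s a : ℝ} (ha : 0 < a) : HasCompactSupport (chi x s a) := by
  refine HasCompactSupport.intro (isCompact_closedBall x (s + a)) fun y hy => ?_
  rw [mem_closedBall, dist_eq_norm, not_le] at hy
  exact chi_zero ha hy.le

/-- The master inequality. -/
theorem mi {w : V → V} (hw : DF w) (x : V) {ρ s a : ℝ} (hρ : 0 < ρ) (ha : 0 < a) (has : a ≤ s) :
    Integrable (fun y => chi x s a y * dn w x ρ y) ∧
    ∫ y, chi x s a y * dn w x ρ y ≤ (∫ y in closedBall x (s + a), kap w y)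
      + 2 / a * ∫ y in Shell x s a, len (w y) := by
  have hw1 : ContDiff ℝ 1 w := contDiff_pi.2 hw.smooth
  have hχ := chi_smooth x s a
  have hcs := chi_cs (x := x) (s := s) ha
  obtain ⟨hJi, hJ0⟩ := Jd_zero hw hχ hcs x hρ
  have hlc := len_cont hw.cont
  have i1 : Integrable (fun y => chi x s a y * dn w x ρ y) := by
    have h1 : Integrable (fun y => chi x s a y * (len (w y) / ρ)) :=
      (hχ.continuous.mul (hlc.div_const ρ)).integrable_of_hasCompactSupport hcs.mul_right
    refine h1.mono' (hχ.continuous.measurable.mul (dn_meas hw.cont x)).aestronglyMeasurable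
      (ae_of_all _ fun y => ?_)
    rw [Real.norm_eq_abs, abs_of_nonneg (mul_nonneg (chi_nonneg _ _ _ _) (dn_nonneg w x hρ y))]
    exact mul_le_mul_of_nonneg_left (dn_le w x hρ y) (chi_nonneg _ _ _ _)
  have hSm : MeasurableSet (Shell x s a) := by
    have hc : Continuous fun y : V => |‖y - x‖ - s| := by fun_prop
    exact (isClosed_le hc continuous_const).measurableSet
  have hSsub : Shell x s a ⊆ closedBall x (s + a) := by
    intro y hy
    have h1 : |‖y - x‖ - s| ≤ a := hy
    rw [mem_closedBall, dist_eq_norm]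
    linarith [(abs_le.1 h1).2]
  have i2 : Integrable ((closedBall x (s + a)).indicator (kap w)) :=
    (integrable_indicator_iff measurableSet_closedBall).2 (kap_intOn hw1 x _)
  have i3 : Integrable ((Shell x s a).indicator fun y => 2 / a * len (w y)) := by
    refine (integrable_indicator_iff hSm).2 ?_
    exact ((continuous_const.mul hlc).continuousOn.integrableOn_compact
      (isCompact_closedBall x (s + a))).mono_set hSsub
  refine ⟨i1, ?_⟩
  have h1 : ∫ y, chi x s a y * dn w x ρ y ≤ ∫ y, (Jd w (chi x s a) x ρ 0 y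
      + (closedBall x (s + a)).indicator (kap w) y
      + (Shell x s a).indicator (fun y => 2 / a * len (w y)) y) := by
    apply integral_mono i1 ((hJi.add i2).add i3)
    intro y
    have h2 := dn_pt w x hρ y (chi_nonneg x s a y)
    have h3 : chi x s a y * kap w y ≤ (closedBall x (s + a)).indicator (kap w) y := by
      by_cases hy : y ∈ closedBall x (s + a)
      · rw [indicator_of_mem hy]
        exact mul_le_of_le_one_left (kap_nonneg w y) (chi_le_one x s a y)
      · rw [indicator_of_notMem hy]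
        rw [mem_closedBall, dist_eq_norm, not_le] at hy
        rw [chi_zero ha hy.le, zero_mul]
    have h4 : |fderiv ℝ (chi x s a) y (w y)|
        ≤ (Shell x s a).indicator (fun y => 2 / a * len (w y)) y := by
      by_cases hy : y ∈ Shell x s a
      · rw [indicator_of_mem hy]
        exact chi_fd ha has y (w y)
      · rw [indicator_of_notMem hy, chi_fd_zero ha hy, abs_zero]
    show chi x s a y * dn w x ρ y ≤ Jd w (chi x s a) x ρ 0 y
      + (closedBall x (s + a)).indicator (kap w) y
      + (Shell x s a).indicator (fun y => 2 / a * len (w y)) y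
    linarith
  refine h1.trans (le_of_eq ?_)
  have i4 : Integrable (fun y => Jd w (chi x s a) x ρ 0 y
      + (closedBall x (s + a)).indicator (kap w) y) := hJi.add i2
  rw [integral_add i4 i3, integral_add hJi i2, hJ0, zero_add, integral_indicator
    measurableSet_closedBall, integral_indicator hSm, integral_const_mul]

end Pool.Agent.H1CV
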