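import Pool.Agent.H1CV.Mon4

/-!
Project CV: the Morrey bound and the pinching lemma at one time (`StmMorC`, `StmPinC`).
-/

set_option autoImplicit false

namespace Pool.Agent.H1CV

open MeasureTheory Set Metric Filter Topology
open scoped ContDiff
open H459R3.NS Pool.Agent.W268.NS Pool.Agent.Q67.VD Pool.Agent.Q85.CC
open Pool.Agent.Q151.CC
open Pool.Agent.Q85.CL (SM)
open Pool.Agent.Q85.VL (Shell ds)
open Pool.Agent.H2VL (chi chi_smooth chi_nonneg chi_le_one chi_zero chi_one chi_fd chi_fd_zero
  ds_le_two)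
open Pool.Agent.H2CV (cv StmMorC StmPinC)

lemma cv_eq (v : V → V) : cv v = kap (vort v) := rfl

lemma om_eq (v : V → V) : om v = fun y => len (vort v y) := rfl

/-- The lower bound in the small ball. -/
lemma dn_ge (w : V → V) {x : V} {ρ : ℝ} (hρ : 0 < ρ) {y : V} (hy : ‖y - x‖ ≤ ρ) :
    len (w y) / (8 * ρ) ≤ dn w x ρ y := by
  have hN := md_pos hρ (y - x)
  have hN2 : md ρ (y - x) ≤ 2 * ρ := ds_le_two hρ.le hy
  have hl := len_nonneg (w y)
  have hN3 : md ρ (y - x) ^ 3 ≤ 8 * ρ ^ 3 := by
    calc md ρ (y - x) ^ 3 ≤ (2 * ρ) ^ 3 := pow_le_pow_left₀ hN.le hN2 3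
      _ = _ := by ring
  unfold dn
  rw [div_le_div_iff₀ (by positivity) (by positivity)]
  have h1 : 0 ≤ len (crossProduct (y - x) (w y)) ^ 2 / len (w y) := by positivity
  calc len (w y) * md ρ (y - x) ^ 3 ≤ len (w y) * (8 * ρ ^ 3) := mul_le_mul_of_nonneg_left hN3 hl
    _ = (ρ ^ 2 * len (w y) + 0) * (8 * ρ) := by ring
    _ ≤ _ := by
        apply mul_le_mul_of_nonneg_right _ (by positivity)
        linarith

/-- The master inequality with the small ball. -/
lemma mi_ball {w : V → V} (hw : DF w) (x : V) {ρ s a : ℝ} (hρ : 0 < ρ) (ha : 0 < a) (has : a ≤ s)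
    (hρs : ρ ≤ s - a) : ∫ y in closedBall x ρ, len (w y)
      ≤ 8 * ρ * ((∫ y in closedBall x (s + a), kap w y)
        + 2 / a * ∫ y in Shell x s a, len (w y)) := by
  obtain ⟨h1, h2⟩ := mi hw x hρ ha has
  have hlc := len_cont hw.cont
  have h3 : ∫ y in closedBall x ρ, len (w y) / (8 * ρ) ≤ ∫ y, chi x s a y * dn w x ρ y := by
    rw [← integral_indicator measurableSet_closedBall]
    apply integral_mono
    · exact (integrable_indicator_iff measurableSet_closedBall).2
        ((hlc.div_const _).continuousOn.integrableOn_compact (isCompact_closedBall _ _))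
    · exact h1
    · intro y
      show (closedBall x ρ).indicator (fun y => len (w y) / (8 * ρ)) y ≤ chi x s a y * dn w x ρ y
      by_cases hy : y ∈ closedBall x ρ
      · rw [indicator_of_mem hy]
        have hy' : ‖y - x‖ ≤ ρ := by
          rw [mem_closedBall, dist_eq_norm] at hy
          exact hy
        rw [chi_one ha (hy'.trans hρs), one_mul]
        exact dn_ge w hρ hy'
      · rw [indicator_of_notMem hy]
        exact mul_nonneg (chi_nonneg _ _ _ _) (dn_nonneg w x hρ y)
  rw [integral_div, div_le_iff₀ (by positivity)] at h3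
  refine h3.trans ?_
  rw [mul_comm]
  exact mul_le_mul_of_nonneg_left h2 (by positivity)

theorem morC : StmMorC := by
  refine ⟨64, by norm_num, ?_⟩
  intro v x r R hv hr hrR
  have hR : 0 < R := by linarith
  have hw : DF (vort v) := vort_df hv
  have h1 := mi_ball hw x (ρ := r) (s := 3 * R / 4) (a := R / 4) hr (by positivity) (by linarith)
    (by linarith)
  have e1 : 3 * R / 4 + R / 4 = R := by ring
  rw [e1] at h1
  have hlc := len_cont hw.cont
  have h2 : ∫ y in Shell x (3 * R / 4) (R / 4), len (vort v y)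
      ≤ ∫ y in closedBall x R, len (vort v y) := by
    apply setIntegral_mono_set
      (hlc.continuousOn.integrableOn_compact (isCompact_closedBall _ _))
      (Eventually.of_forall fun y => len_nonneg _)
    apply LE.le.eventuallyLE
    intro y hy
    have h3 : |‖y - x‖ - 3 * R / 4| ≤ R / 4 := hy
    show y ∈ closedBall x R
    rw [mem_closedBall, dist_eq_norm]
    linarith [(abs_le.1 h3).2]
  have h0 : 0 ≤ ∫ y in closedBall x R, kap (vort v) y :=
    integral_nonneg fun y => kap_nonneg _ y
  show ∫ y in closedBall x r, len (vort v y) ≤ 64 * ((∫ y in closedBall x R, len (vort v y)) / R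
    + ∫ y in closedBall x R, kap (vort v) y) * r
  refine h1.trans ?_
  have h4 : 2 / (R / 4) * ∫ y in Shell x (3 * R / 4) (R / 4), len (vort v y)
      ≤ 8 * ((∫ y in closedBall x R, len (vort v y)) / R) := by
    have h5 : 2 / (R / 4) = 8 / R := by
      field_simp
      norm_num
    rw [h5]
    calc 8 / R * ∫ y in Shell x (3 * R / 4) (R / 4), len (vort v y)
        ≤ 8 / R * ∫ y in closedBall x R, len (vort v y) :=
          mul_le_mul_of_nonneg_left h2 (by positivity)
      _ = _ := by ring
  calc 8 * r * ((∫ y in closedBall x R, kap (vort v) y)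
        + 2 / (R / 4) * ∫ y in Shell x (3 * R / 4) (R / 4), len (vort v y))
      ≤ 8 * r * (8 * (∫ y in closedBall x R, kap (vort v) y)
        + 8 * ((∫ y in closedBall x R, len (vort v y)) / R)) := by
        apply mul_le_mul_of_nonneg_left _ (by positivity)
        linarith
    _ = _ := by ring

/-- the annuli -/
def Ann (x : V) (r : ℝ) : Set V := closedBall x (r / 16) \ ball x (r / 128)

lemma Ann_meas (x : V) (r : ℝ) : MeasurableSet (Ann x r) :=
  measurableSet_closedBall.diff measurableSet_ball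

lemma Ann_mem {x : V} {r : ℝ} {y : V} (h : y ∈ Ann x r) : r / 128 ≤ ‖y - x‖ ∧ ‖y - x‖ ≤ r / 16 := by
  obtain ⟨h1, h2⟩ := h
  rw [mem_closedBall, dist_eq_norm] at h1
  rw [Metric.mem_ball, dist_eq_norm, not_lt] at h2
  exact ⟨h2, h1⟩

/-- The lower bound in an annulus. -/
lemma dn_ge2 (w : V → V) {x : V} {ρ r : ℝ} (hρ : 0 < ρ) (hr : 0 < r) (hρr : ρ ≤ r / 64) {y : V}
    (hy : ‖y - x‖ ≤ r / 16) :
    512 / r ^ 3 * (len (crossProduct (y - x) (w y)) ^ 2 / len (w y)) ≤ dn w x ρ y := by
  have hN := md_pos hρ (y - x)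
  have hN2 := md_sq ρ (y - x)
  have hl := len_nonneg (w y)
  have hz : (y - x) ⬝ᵥ (y - x) ≤ 3 * ‖y - x‖ ^ 2 := by
    rw [dot3]
    have h : ∀ i, (y - x) i * (y - x) i ≤ ‖y - x‖ ^ 2 := fun i => by
      have := norm_le_pi_norm (y - x) i
      rw [Real.norm_eq_abs] at this
      have h2 := abs_le.1 this
      nlinarith
    linarith [h 0, h 1, h 2]
  have hz2 : ‖y - x‖ ^ 2 ≤ (r / 16) ^ 2 := pow_le_pow_left₀ (norm_nonneg _) hy 2
  have hρ2 : ρ ^ 2 ≤ (r / 64) ^ 2 := pow_le_pow_left₀ hρ.le hρr 2
  have hN8 : md ρ (y - x) ≤ r / 8 := by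
    apply le_of_sq_le_sq _ (by positivity)
    rw [hN2]
    nlinarith
  have hN3 : md ρ (y - x) ^ 3 ≤ r ^ 3 / 512 := by
    calc md ρ (y - x) ^ 3 ≤ (r / 8) ^ 3 := pow_le_pow_left₀ hN.le hN8 3
      _ = _ := by ring
  unfold dn
  rw [le_div_iff₀ (by positivity)]
  have h1 : 0 ≤ len (crossProduct (y - x) (w y)) ^ 2 / len (w y) := by positivity
  have h2 : 512 / r ^ 3 * md ρ (y - x) ^ 3 ≤ 1 := by
    calc 512 / r ^ 3 * md ρ (y - x) ^ 3 ≤ 512 / r ^ 3 * (r ^ 3 / 512) :=
          mul_le_mul_of_nonneg_left hN3 (by positivity)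
      _ = 1 := by field_simp
  calc 512 / r ^ 3 * (len (crossProduct (y - x) (w y)) ^ 2 / len (w y)) * md ρ (y - x) ^ 3
      = 512 / r ^ 3 * md ρ (y - x) ^ 3
        * (len (crossProduct (y - x) (w y)) ^ 2 / len (w y)) := by ring
    _ ≤ 1 * (len (crossProduct (y - x) (w y)) ^ 2 / len (w y)) :=
        mul_le_mul_of_nonneg_right h2 h1
    _ ≤ _ := by
        have : 0 ≤ ρ ^ 2 * len (w y) := by positivity
        linarith

lemma rad_intOn {w : V → V} (hw : Continuous w) (x : V) (R : ℝ) :
    IntegrableOn (fun y => len (crossProduct (y - x) (w y)) ^ 2 / len (w y)) (closedBall x R) := by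
  have hlc := len_cont hw
  have h2 : Continuous fun y => crossProduct (y - x) (w y) := by
    have hwi : ∀ i : Fin 3, Continuous fun y => w y i := fun i => (continuous_apply i).comp hw
    refine continuous_pi fun i => ?_
    simp only [cross_apply]
    fin_cases i <;> simp <;> fun_prop
  have h3 : Continuous fun y : V => len (y - x) := len_cont (by fun_prop)
  have h1 : IntegrableOn (fun y => len (y - x) ^ 2 * len (w y)) (closedBall x R) :=
    ((h3.pow 2).mul hlc).continuousOn.integrableOn_compact (isCompact_closedBall _ _)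
  refine h1.mono' (((len_cont h2).measurable.pow_const 2).div hlc.measurable).aestronglyMeasurable
    (ae_of_all _ fun y => ?_)
  have hl := len_nonneg (w y)
  rw [Real.norm_eq_abs, abs_of_nonneg (by positivity)]
  rcases eq_or_lt_of_le hl with h | h
  · rw [← h]
    simp
  · rw [div_le_iff₀ h]
    have h4 := pow_le_pow_left₀ (len_nonneg _) (len_cross_le (y - x) (w y)) 2
    rw [mul_pow] at h4
    linarith

theorem pinC : StmPinC := by
  refine ⟨1 / 32, by norm_num, by norm_num, ?_⟩
  intro K η τ hK hη hη1 hτ hτ1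
  obtain ⟨N, hN⟩ := exists_nat_gt ((1 + 8 * K) / (512 * τ))
  rw [div_lt_iff₀ (by positivity)] at hN
  refine ⟨N + 1, ?_⟩
  intro v x R ρ hv hR hom hcv hρ hρR hconc
  have hw : DF (vort v) := vort_df hv
  have hlc := len_cont hw.cont
  obtain ⟨rr, hrr⟩ : ∃ rr : ℕ → ℝ, rr = fun k => (1 / 256 : ℝ) ^ k * (R / 4) := ⟨_, rfl⟩
  have hrr0 : ∀ k, 0 < rr k := fun k => by
    rw [hrr]
    positivity
  have hrrR : ∀ k, rr k ≤ R / 4 := fun k => by
    rw [hrr]
    exact mul_le_of_le_one_left (by positivity) (pow_le_one₀ (by norm_num) (by norm_num))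
  have hrrs : ∀ k, rr (k + 1) = rr k / 256 := fun k => by
    rw [hrr]
    simp only [pow_succ]
    ring
  have hanti : ∀ k l, k ≤ l → rr l ≤ rr k := by
    intro k l hkl
    rw [hrr]
    exact mul_le_mul_of_nonneg_right (pow_le_pow_of_le_one (by norm_num) (by norm_num) hkl)
      (by positivity)
  have hρk : ∀ k < N, ρ ≤ rr k / 16384 := by
    intro k hk
    have h1 : rr (k + 2) ≥ (1 / 256) ^ (N + 1) * (R / 4) := by
      rw [hrr]
      exact mul_le_mul_of_nonneg_right (pow_le_pow_of_le_one (by norm_num) (by norm_num)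
        (by omega)) (by positivity)
    have h2 : rr (k + 2) = rr k / 65536 := by
      rw [show k + 2 = (k + 1) + 1 from rfl, hrrs, hrrs]
      ring
    rw [h2] at h1
    linarith
  have hkR : ∫ y in closedBall x R, kap (vort v) y ≤ 1 / 32 * η := hcv
  have hoR : ∫ y in closedBall x R, len (vort v y) ≤ K * R := hom
  have hcc : η * ρ ≤ ∫ y in closedBall x ρ, len (vort v y) := hconc
  -- the shells
  have hshell : ∀ k < N, ∀ s a : ℝ, rr k / 64 ≤ s → s ≤ rr k / 32 → 0 < a → a ≤ s / 4 →
      1 / 32 * η * a ≤ ∫ y in Shell x s a, len (vort v y) := by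
    intro k hk s a hs1 hs2 ha has
    have hrk := hrr0 k
    have hrkR := hrrR k
    have h1 := mi_ball hw x (ρ := ρ) (s := s) (a := a) hρ ha (by linarith)
      (by linarith [hρk k hk])
    have h2 : ∫ y in closedBall x (s + a), kap (vort v) y ≤ ∫ y in closedBall x R, kap (vort v) y :=
      setIntegral_mono_set (kap_intOn (contDiff_pi.2 hw.smooth) x R)
        (Eventually.of_forall fun y => kap_nonneg _ y)
        (closedBall_subset_closedBall (by linarith)).eventuallyLE
    have h3 : η * ρ ≤ 8 * ρ * (1 / 32 * η + 2 / a * ∫ y in Shell x s a, len (vort v y)) :=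
      hcc.trans (h1.trans (mul_le_mul_of_nonneg_left (by linarith) (by positivity)))
    have h4 : η ≤ 8 * (1 / 32 * η + 2 / a * ∫ y in Shell x s a, len (vort v y)) := by
      have h5 : ρ * η ≤ ρ * (8 * (1 / 32 * η + 2 / a * ∫ y in Shell x s a, len (vort v y))) := by
        linarith
      exact le_of_mul_le_mul_left h5 hρ
    have h5 : 3 / 4 * η ≤ 16 / a * ∫ y in Shell x s a, len (vort v y) := by
      have e : 16 / a * ∫ y in Shell x s a, len (vort v y)
          = 8 * (2 / a * ∫ y in Shell x s a, len (vort v y)) := by ring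
      rw [e]
      linarith
    rw [div_mul_eq_mul_div (16 : ℝ) a, le_div_iff₀ ha] at h5
    have h6 : 0 ≤ η * a := by positivity
    linarith
  -- the radial part
  obtain ⟨hmi1, hmi2⟩ := mi hw x (ρ := ρ) (s := 3 * R / 4) (a := R / 4) hρ (by positivity)
    (by linarith)
  have e1 : 3 * R / 4 + R / 4 = R := by ring
  rw [e1] at hmi2
  have hSh : ∫ y in Shell x (3 * R / 4) (R / 4), len (vort v y)
      ≤ ∫ y in closedBall x R, len (vort v y) := by
    apply setIntegral_mono_set
      (hlc.continuousOn.integrableOn_compact (isCompact_closedBall _ _))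
      (Eventually.of_forall fun y => len_nonneg _)
    apply LE.le.eventuallyLE
    intro y hy
    have h3 : |‖y - x‖ - 3 * R / 4| ≤ R / 4 := hy
    show y ∈ closedBall x R
    rw [mem_closedBall, dist_eq_norm]
    linarith [(abs_le.1 h3).2]
  have htot : ∫ y, chi x (3 * R / 4) (R / 4) y * dn (vort v) x ρ y ≤ 1 + 8 * K := by
    refine hmi2.trans ?_
    have h5 : 2 / (R / 4) * ∫ y in Shell x (3 * R / 4) (R / 4), len (vort v y) ≤ 8 * K := by
      have e : 2 / (R / 4) = 8 / R := by
        field_simp
        norm_num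
      rw [e, div_mul_eq_mul_div, div_le_iff₀ hR]
      linarith
    linarith
  by_contra hcon
  push Not at hcon
  -- all the annuli are bad
  have hbad : ∀ k < N, τ * rr k ^ 3 < ∫ y in Ann x (rr k),
      len (crossProduct (y - x) (vort v y)) ^ 2 / len (vort v y) := by
    intro k hk
    by_contra hc
    rw [not_lt] at hc
    obtain ⟨s, a, h1, h2, h3, h4, h5⟩ := hcon k (by omega) (by
      rw [hrr] at hc
      exact hc)
    have h6 := hshell k hk s a (by rw [hrr]; exact h1) (by rw [hrr]; exact h2) h3 h4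
    have h7 : ∫ y in Shell x s a, om v y < 1 / 32 * η * a := h5
    exact absurd h6 (not_le.2 h7)
  have hsub : ∀ k, Ann x (rr k) ⊆ closedBall x (R / 2) := by
    intro k y hy
    rw [mem_closedBall, dist_eq_norm]
    have := (Ann_mem hy).2
    have := hrrR k
    linarith
  have hdisj : Set.Pairwise (↑(Finset.range N)) (Function.onFun Disjoint fun k => Ann x (rr k)) := by
    have key : ∀ k l, k < l → Disjoint (Ann x (rr k)) (Ann x (rr l)) := by
      intro k l hkl
      rw [Set.disjoint_left]
      intro y h1 h2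
      have h3 := (Ann_mem h1).1
      have h4 := (Ann_mem h2).2
      have h5 := hanti (k + 1) l hkl
      rw [hrrs] at h5
      have := hrr0 k
      linarith
    intro k _ l _ hkl
    rcases lt_or_gt_of_ne hkl with h | h
    · exact key k l h
    · exact (key l k h).symm
  have hdi : IntegrableOn (dn (vort v) x ρ) (closedBall x (R / 2)) := by
    have h1 : IntegrableOn (fun y => len (vort v y) / ρ) (closedBall x (R / 2)) :=
      (hlc.div_const ρ).continuousOn.integrableOn_compact (isCompact_closedBall _ _)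
    refine h1.mono' (dn_meas hw.cont x).aestronglyMeasurable (ae_of_all _ fun y => ?_)
    rw [Real.norm_eq_abs, abs_of_nonneg (dn_nonneg _ x hρ y)]
    exact dn_le _ x hρ y
  have hsum : ∑ k ∈ Finset.range N, ∫ y in Ann x (rr k), dn (vort v) x ρ y
      ≤ ∫ y, chi x (3 * R / 4) (R / 4) y * dn (vort v) x ρ y := by
    rw [← integral_biUnion_finset (Finset.range N) (fun k _ => Ann_meas x (rr k)) hdisj
      (fun k _ => hdi.mono_set (hsub k))]
    have hm : MeasurableSet (⋃ k ∈ Finset.range N, Ann x (rr k)) :=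
      Finset.measurableSet_biUnion _ fun k _ => Ann_meas x (rr k)
    have hs : (⋃ k ∈ Finset.range N, Ann x (rr k)) ⊆ closedBall x (R / 2) :=
      iUnion₂_subset fun k _ => hsub k
    rw [← integral_indicator hm]
    apply integral_mono
    · exact (integrable_indicator_iff hm).2 (hdi.mono_set hs)
    · exact hmi1
    · intro y
      show (⋃ k ∈ Finset.range N, Ann x (rr k)).indicator (dn (vort v) x ρ) y
        ≤ chi x (3 * R / 4) (R / 4) y * dn (vort v) x ρ y
      by_cases hy : y ∈ ⋃ k ∈ Finset.range N, Ann x (rr k)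
      · rw [indicator_of_mem hy]
        have h1 := hs hy
        rw [mem_closedBall, dist_eq_norm] at h1
        rw [chi_one (by positivity) (by linarith), one_mul]
      · rw [indicator_of_notMem hy]
        exact mul_nonneg (chi_nonneg _ _ _ _) (dn_nonneg _ x hρ y)
  have hlow : ∀ k ∈ Finset.range N, 512 * τ ≤ ∫ y in Ann x (rr k), dn (vort v) x ρ y := by
    intro k hk
    rw [Finset.mem_range] at hk
    have hrk := hrr0 k
    have h1 : ∫ y in Ann x (rr k), 512 / rr k ^ 3 *
        (len (crossProduct (y - x) (vort v y)) ^ 2 / len (vort v y))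
        ≤ ∫ y in Ann x (rr k), dn (vort v) x ρ y := by
      apply setIntegral_mono_on
      · exact ((rad_intOn hw.cont x (R / 2)).mono_set (hsub k)).const_mul _
      · exact hdi.mono_set (hsub k)
      · exact Ann_meas x _
      · intro y hy
        exact dn_ge2 _ hρ hrk (by linarith [hρk k hk]) (Ann_mem hy).2
    rw [integral_const_mul] at h1
    refine le_trans ?_ h1
    have h2 := (hbad k hk).le
    calc 512 * τ = 512 / rr k ^ 3 * (τ * rr k ^ 3) := by field_simp
      _ ≤ _ := mul_le_mul_of_nonneg_left h2 (by positivity)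
  have hfin := Finset.sum_le_sum hlow
  rw [Finset.sum_const, Finset.card_range, nsmul_eq_mul] at hfin
  linarith

end Pool.Agent.H1CV
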