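import Pool.Agent.H2CV.Defs2
import Pool.Agent.TH305.DR.Scale
import Pool.Agent.Q26.CC.Fin
import Pool.Agent.H1CV.Mon3

/-!
Project CV: the shell argument at the scale `r` from the one at unit scale.
-/

set_option autoImplicit false

namespace Pool.Agent.H1CV

open MeasureTheory Set Metric Filter Topology
open scoped ContDiff
open H459R3.NS Pool.Agent.W268.NS Pool.Agent.Q67.VD
open Pool.Agent.TH305.DR (SS SS_scale pd_scale1 SS_nonneg)
open Pool.Agent.W583.MD (sm_pd)
open Pool.Agent.Q85.CC (SQ cur)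
open Pool.Agent.Q85.CL (LEq)
open Pool.Agent.Q85.VL (Shell)
open Pool.Agent.Q26.CC (SQ_eq)
open Pool.Agent.Q151.CC (dot3)
open Pool.Agent.H2CV (cv StmShl StmShlR)

/-- The rescaled velocity. -/
noncomputable def us (r : ℝ) (x : V) (u : ℝ → V → V) (τ : ℝ) (y : V) : V :=
  r • u (r ^ 2 * τ) (x + r • y)

/-- The rescaled pressure. -/
noncomputable def ps (r : ℝ) (x : V) (p : ℝ → V → ℝ) (τ : ℝ) (y : V) : ℝ :=
  r ^ 2 * p (r ^ 2 * τ) (x + r • y)

section

variable {T : ℝ} {O : Set V} {u : ℝ → V → V} {p : ℝ → V → ℝ} {r : ℝ} {x : V}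

lemma time_mem (hr : 0 < r) {τ : ℝ} (hτ : τ ∈ Ioo 0 (T / r ^ 2)) : r ^ 2 * τ ∈ Ioo 0 T := by
  have h2 : 0 < r ^ 2 := by positivity
  refine ⟨mul_pos h2 hτ.1, ?_⟩
  have := hτ.2
  rw [lt_div_iff₀ h2] at this
  linarith

lemma sm_slice {f : ℝ → V → ℝ} (hf : ContDiffOn ℝ ∞ (fun z : ℝ × V => f z.1 z.2)
    (Ioo 0 T ×ˢ univ)) {t : ℝ} (ht : t ∈ Ioo 0 T) : ContDiff ℝ ∞ (f t) := by
  rw [← contDiffOn_univ]
  exact hf.comp (contDiff_const.prodMk contDiff_id).contDiffOn (fun y _ => ⟨ht, mem_univ _⟩)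

lemma sm_scale {f : ℝ → V → ℝ} (hf : ContDiffOn ℝ ∞ (fun z : ℝ × V => f z.1 z.2)
    (Ioo 0 T ×ˢ univ)) (hr : 0 < r) (c : ℝ) :
    ContDiffOn ℝ ∞ (fun z : ℝ × V => c * f (r ^ 2 * z.1) (x + r • z.2))
      (Ioo 0 (T / r ^ 2) ×ˢ univ) := by
  have h1 : ContDiffOn ℝ ∞ (fun z : ℝ × V => ((r ^ 2 * z.1, x + r • z.2) : ℝ × V))
      (Ioo 0 (T / r ^ 2) ×ˢ univ) := by
    apply ContDiff.contDiffOn
    exact (contDiff_const.mul contDiff_fst).prodMk (contDiff_const.add
      (contDiff_snd.const_smul r))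
  exact contDiffOn_const.mul (hf.comp h1 (fun z hz => ⟨time_mem hr hz.1, mem_univ _⟩))

theorem leq_scale (h : LEq T O u p) (hr : 0 < r) :
    LEq (T / r ^ 2) {y | x + r • y ∈ O} (us r x u) (ps r x p) := by
  have hui : ∀ i, ContDiffOn ℝ ∞ (fun z : ℝ × V => u z.1 z.2 i) (Ioo 0 T ×ˢ univ) :=
    fun i => contDiffOn_pi.1 h.smooth_u i
  have hvs : ∀ t ∈ Ioo 0 T, ∀ i, ContDiff ℝ ∞ (fun y => u t y i) := fun t ht i =>
    sm_slice (f := fun t y => u t y i) (hui i) ht
  have hps : ∀ t ∈ Ioo 0 T, ContDiff ℝ ∞ (p t) := fun t ht => sm_slice h.smooth_p ht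
  refine ⟨?_, ?_, ?_, ?_, ?_⟩
  · exact h.openO.preimage (by fun_prop)
  · exact contDiffOn_pi.2 fun i => sm_scale (f := fun t y => u t y i) (hui i) hr r
  · exact sm_scale h.smooth_p hr (r ^ 2)
  · intro τ hτ y hy
    have ht := time_mem hr hτ
    have h1 := h.divfree _ ht _ hy
    have h2 : ∀ i, pd i (fun y => us r x u τ y i) y
        = r * r * pd i (fun y => u (r ^ 2 * τ) y i) (x + r • y) := fun i =>
      congrFun (pd_scale1 (hvs _ ht i) r r x i) y
    simp only [h2]
    rw [← Finset.mul_sum, h1, mul_zero]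
  · intro τ hτ y hy i
    have ht := time_mem hr hτ
    have h1 := h.momentum _ ht _ hy i
    have h2 : ∀ j, pd j (fun y => us r x u τ y i)
        = fun y => r * r * pd j (fun y => u (r ^ 2 * τ) y i) (x + r • y) := fun j =>
      pd_scale1 (hvs _ ht i) r r x j
    have h3 : ∀ j, pd j (pd j (fun y => us r x u τ y i)) y
        = r * r * r * pd j (pd j (fun y => u (r ^ 2 * τ) y i)) (x + r • y) := fun j => by
      rw [h2 j]
      exact congrFun (pd_scale1 (sm_pd (hvs _ ht i) j) (r * r) r x j) y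
    have h4 : pd i (ps r x p τ) y = r ^ 2 * r * pd i (p (r ^ 2 * τ)) (x + r • y) :=
      congrFun (pd_scale1 (hps _ ht) (r ^ 2) r x i) y
    have h5 : deriv (fun s => us r x u s y i) τ
        = r * (r ^ 2 * deriv (fun s => u s (x + r • y) i) (r ^ 2 * τ)) := by
      have hd : DifferentiableAt ℝ (fun s => u s (x + r • y) i) (r ^ 2 * τ) :=
        (Pool.Agent.W583.MD.hd_slice (F := fun t y => u t y i) (hui i) ht
          (x + r • y)).differentiableAt
      have h6 : HasDerivAt (fun s : ℝ => r ^ 2 * s) (r ^ 2) τ := by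
        simpa using (hasDerivAt_id τ).const_mul (r ^ 2)
      have h7 := (hd.hasDerivAt.comp τ h6).const_mul r
      have h8 : HasDerivAt (fun s => us r x u s y i)
          (r * (deriv (fun s => u s (x + r • y) i) (r ^ 2 * τ) * r ^ 2)) τ := h7
      rw [h8.deriv]
      ring
    rw [h5, h4]
    simp only [h3]
    have h9 : ∀ j, us r x u τ y j * pd j (fun y => us r x u τ y i) y
        = r ^ 3 * (u (r ^ 2 * τ) (x + r • y) j
          * pd j (fun y => u (r ^ 2 * τ) y i) (x + r • y)) := fun j => by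
      rw [h2 j]
      show r * u (r ^ 2 * τ) (x + r • y) j * _ = _
      ring
    simp only [h9]
    rw [← Finset.mul_sum, ← Finset.mul_sum]
    linear_combination r ^ 3 * h1

end

/-! ### The fields at one time -/

section

variable {v : V → V} {r : ℝ} {x : V}

lemma cur_s (hv : ∀ i, ContDiff ℝ ∞ (fun y => v y i)) (i j : Fin 3) :
    cur i j (fun y => r • v (x + r • y)) = fun y => r ^ 2 * cur i j v (x + r • y) := by
  funext y
  unfold cur
  have h : ∀ i j, pd j (fun y => (r • v (x + r • y)) i) y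
      = r * r * pd j (fun y => v y i) (x + r • y) := fun i j =>
    congrFun (pd_scale1 (hv i) r r x j) y
  rw [h, h]
  ring

lemma vort_s (hv : ∀ i, ContDiff ℝ ∞ (fun y => v y i)) :
    vort (fun y => r • v (x + r • y)) = fun y => r ^ 2 • vort v (x + r • y) := by
  funext y i
  have h := fun i j => congrFun (cur_s (r := r) (x := x) hv i j) y
  have h12 := h 1 2
  have h20 := h 2 0
  have h01 := h 0 1
  unfold cur at h12 h20 h01
  fin_cases i
  · exact h12
  · exact h20
  · exact h01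

lemma SQ_cur_s (hv : ∀ i, ContDiff ℝ ∞ (fun y => v y i)) (n : ℕ) (i j : Fin 3) (y : V) :
    SQ n (cur i j (fun y => r • v (x + r • y))) y
      = r ^ (2 * n + 4) * SQ n (cur i j v) (x + r • y) := by
  have hc : ContDiff ℝ ∞ (cur i j v) := (sm_pd (hv j) i).sub (sm_pd (hv i) j)
  rw [cur_s hv, SQ_eq, SQ_eq, SS_scale n hc]
  ring

lemma SQ_v_s (hv : ∀ i, ContDiff ℝ ∞ (fun y => v y i)) (n : ℕ) (i : Fin 3) (y : V) :
    SQ n (fun y => (r • v (x + r • y)) i) y = r ^ (2 * n + 2) * SQ n (fun y => v y i) (x + r • y) := by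
  rw [SQ_eq, SQ_eq]
  have h := SS_scale n (hv i) r r x y
  have e : (fun y => (r • v (x + r • y)) i) = fun y => r * v (x + r • y) i := rfl
  rw [e, h]
  ring

lemma len_smul' (c : ℝ) (a : V) : len (c • a) = |c| * len a := by
  unfold len
  have e : (c • a) ⬝ᵥ (c • a) = c ^ 2 * (a ⬝ᵥ a) := by
    simp only [dot3, Pi.smul_apply, smul_eq_mul]
    ring
  rw [e, Real.sqrt_mul (sq_nonneg c), Real.sqrt_sq_eq_abs]

lemma om_s (hv : ∀ i, ContDiff ℝ ∞ (fun y => v y i)) (y : V) :
    om (fun y => r • v (x + r • y)) y = r ^ 2 * om v (x + r • y) := by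
  unfold om
  rw [vort_s hv, len_smul', abs_of_nonneg (sq_nonneg r)]

lemma vort_c1 (hv : ∀ i, ContDiff ℝ ∞ (fun y => v y i)) : ContDiff ℝ 1 (vort v) :=
  contDiff_pi.2 (Pool.Agent.Q151.CC.vort_df hv).smooth

lemma cross_smul2 (c d : ℝ) (a b : V) :
    crossProduct (c • a) (d • b) = (c * d) • crossProduct a b := by
  rw [map_smul, LinearMap.map_smul₂, smul_smul, mul_comm]

lemma cv_s (hr : 0 < r) (hv : ∀ i, ContDiff ℝ ∞ (fun y => v y i)) (y : V) :
    cv (fun y => r • v (x + r • y)) y = r ^ 3 * cv v (x + r • y) := by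
  have hW := vort_c1 hv
  have h1 : fderiv ℝ (vort (fun y => r • v (x + r • y))) y (r ^ 2 • vort v (x + r • y))
      = r ^ 5 • fderiv ℝ (vort v) (x + r • y) (vort v (x + r • y)) := by
    rw [vort_s hv]
    have a1 : HasFDerivAt (vort v) (fderiv ℝ (vort v) (x + r • y)) (x + r • y) :=
      (hW.differentiable one_ne_zero _).hasFDerivAt
    have a2 : HasFDerivAt (fun y : V => x + r • y) (r • ContinuousLinearMap.id ℝ V) y :=
      ((hasFDerivAt_id y).const_smul r).const_add x
    have a3 := (a1.comp y a2).const_smul (r ^ 2)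
    have a4 : fderiv ℝ (fun y => r ^ 2 • vort v (x + r • y)) y = _ := a3.fderiv
    rw [a4]
    simp only [_root_.smul_apply, ContinuousLinearMap.comp_apply,
      ContinuousLinearMap.id_apply, map_smul, smul_smul]
    congr 1
    ring
  have h2 : vort (fun y => r • v (x + r • y)) y = r ^ 2 • vort v (x + r • y) :=
    congrFun (vort_s hv) y
  unfold cv
  rw [om_s hv, h2, h1, cross_smul2, len_smul', abs_of_nonneg (by positivity)]
  rcases eq_or_ne (om v (x + r • y)) 0 with h | h
  · rw [h]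
    simp
  · field_simp

end

/-- Change of variables in a shell. -/
lemma shell_cov (f : V → ℝ) {r : ℝ} (hr : 0 < r) (x : V) (s h : ℝ) :
    ∫ y in Shell 0 (s / r) h, f (x + r • y) = (r ^ 3)⁻¹ * ∫ z in Shell x s (h * r), f z := by
  have hm : ∀ (x : V) (s h : ℝ), MeasurableSet (Shell x s h) := by
    intro x s h
    have hc : Continuous fun y : V => |‖y - x‖ - s| := by fun_prop
    exact (isClosed_le hc continuous_const).measurableSet
  rw [← integral_indicator (hm _ _ _), ← integral_indicator (hm _ _ _)]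
  have h1 := Measure.integral_comp_smul (volume : Measure V)
    (fun z => (Shell x s (h * r)).indicator f (x + z)) r
  have h3 : Module.finrank ℝ V = 3 := by simp
  rw [h3, abs_of_nonneg (by positivity), smul_eq_mul,
    integral_add_left_eq_self (fun z => (Shell x s (h * r)).indicator f z) x] at h1
  rw [← h1]
  congr 1
  funext y
  have hmem : y ∈ Shell 0 (s / r) h ↔ x + r • y ∈ Shell x s (h * r) := by
    show |‖y - 0‖ - s / r| ≤ h ↔ |‖x + r • y - x‖ - s| ≤ h * r
    rw [sub_zero, add_sub_cancel_left, norm_smul, Real.norm_eq_abs, abs_of_pos hr]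
    have e : r * ‖y‖ - s = (‖y‖ - s / r) * r := by
      field_simp
    rw [e, abs_mul, abs_of_pos hr]
    exact (mul_le_mul_iff_left₀ hr).symm
  by_cases hy : y ∈ Shell 0 (s / r) h
  · rw [indicator_of_mem hy, indicator_of_mem (hmem.1 hy)]
  · rw [indicator_of_notMem hy, indicator_of_notMem fun h' => hy (hmem.2 h')]

theorem shlR (hS : StmShl) : StmShlR := by
  intro M h ε hM hh hh1 hε
  obtain ⟨τ, w₀, hτ, hw₀, hw₀h, H⟩ := hS M h ε hM hh hh1 hε
  refine ⟨τ, w₀, hτ, hw₀, hw₀h, ?_⟩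
  intro T O u p t r s x hL hr ht0 ht hs1 hs2 hbd hrad hcv y hy
  have hr2 : 0 < r ^ 2 := by positivity
  have htT : t ∈ Ioo 0 T := ⟨lt_trans (by positivity) ht0, ht⟩
  have hui : ∀ i, ContDiffOn ℝ ∞ (fun z : ℝ × V => u z.1 z.2 i) (Ioo 0 T ×ˢ univ) :=
    fun i => contDiffOn_pi.1 hL.smooth_u i
  have hvs : ∀ t ∈ Ioo 0 T, ∀ i, ContDiff ℝ ∞ (fun y => u t y i) := fun t ht i =>
    sm_slice (f := fun t y => u t y i) (hui i) ht
  have hus : ∀ τ, us r x u τ = fun y => r • u (r ^ 2 * τ) (x + r • y) := fun τ => rfl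
  have htt : r ^ 2 * (t / r ^ 2) = t := by field_simp
  have hwin : ∀ t' ∈ Ioc (t / r ^ 2 - h ^ 2) (t / r ^ 2),
      r ^ 2 * t' ∈ Ioc (t - (h * r) ^ 2) t := by
    intro t' ht'
    constructor
    · have h1 := mul_lt_mul_of_pos_left ht'.1 hr2
      rw [mul_sub, htt] at h1
      linarith
    · have h1 := mul_le_mul_of_nonneg_left ht'.2 hr2.le
      rw [htt] at h1
      exact h1
  have hwin0 : ∀ t' ∈ Ioc (t / r ^ 2 - h ^ 2) (t / r ^ 2), r ^ 2 * t' ∈ Ioo 0 T := by
    intro t' ht'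
    have h1 := hwin t' ht'
    exact ⟨by linarith [h1.1], lt_of_le_of_lt h1.2 ht⟩
  have key := H (T / r ^ 2) {y | x + r • y ∈ O} (us r x u) (ps r x p) (t / r ^ 2) (s / r)
    (leq_scale hL hr)
    (by
      rw [lt_div_iff₀ hr2]
      linarith)
    (div_lt_div_of_pos_right ht hr2)
    (by
      rw [le_div_iff₀ hr]
      linarith)
    (by
      rw [div_le_iff₀ hr]
      linarith)
    (by
      intro t' ht' z hz
      have hz' : |‖x + r • z - x‖ - s| < h * r := by
        rw [add_sub_cancel_left, norm_smul, Real.norm_eq_abs, abs_of_pos hr]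
        have e : r * ‖z‖ - s = (‖z‖ - s / r) * r := by field_simp
        rw [e, abs_mul, abs_of_pos hr]
        exact mul_lt_mul_of_pos_right hz hr
      obtain ⟨b1, b2, b3⟩ := hbd _ (hwin t' ht') _ hz'
      refine ⟨b1, ?_, ?_⟩
      · intro n hn i j
        rw [hus, SQ_cur_s (hvs _ (hwin0 t' ht'))]
        exact b2 n hn i j
      · intro n hn i
        rw [hus, SQ_v_s (hvs _ (hwin0 t' ht'))]
        exact b3 n hn i)
    (by
      have e1 : (fun y => len (crossProduct y (vort (us r x u (t / r ^ 2)) y)) ^ 2)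
          = fun y => (fun z => r ^ 2 * len (crossProduct (z - x) (vort (u t) z)) ^ 2)
            (x + r • y) := by
        funext y
        rw [hus, htt, vort_s (hvs _ htT)]
        show len (crossProduct y (r ^ 2 • vort (u t) (x + r • y))) ^ 2
          = r ^ 2 * len (crossProduct (x + r • y - x) (vort (u t) (x + r • y))) ^ 2
        rw [add_sub_cancel_left]
        have e2 : crossProduct y (r ^ 2 • vort (u t) (x + r • y))
            = r • crossProduct (r • y) (vort (u t) (x + r • y)) := by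
          rw [map_smul, LinearMap.map_smul₂, smul_smul, pow_two]
        rw [e2, len_smul', mul_pow, sq_abs]
      have h2 := shell_cov (fun z => r ^ 2 * len (crossProduct (z - x) (vort (u t) z)) ^ 2) hr x s h
      rw [e1]
      refine (le_of_eq h2).trans ?_
      rw [integral_const_mul]
      calc (r ^ 3)⁻¹ * (r ^ 2 * ∫ z in Shell x s (h * r),
            len (crossProduct (z - x) (vort (u t) z)) ^ 2)
          ≤ (r ^ 3)⁻¹ * (r ^ 2 * (τ * r)) := by gcongr
        _ = τ := by field_simp)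
    (by
      intro t' ht'
      have e1 : (fun y => cv (us r x u t') y)
          = fun y => (fun z => r ^ 3 * cv (u (r ^ 2 * t')) z) (x + r • y) := by
        funext y
        rw [hus, cv_s hr (hvs _ (hwin0 t' ht'))]
      have h2 := shell_cov (fun z => r ^ 3 * cv (u (r ^ 2 * t')) z) hr x s h
      rw [e1]
      refine (le_of_eq h2).trans ?_
      rw [integral_const_mul]
      have h1 := hcv _ (hwin t' ht')
      calc (r ^ 3)⁻¹ * (r ^ 3 * ∫ z in Shell x s (h * r), cv (u (r ^ 2 * t')) z)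
          ≤ (r ^ 3)⁻¹ * (r ^ 3 * τ) := by gcongr
        _ = τ := by field_simp)
    (r⁻¹ • (y - x)) (by
      rw [norm_smul, norm_inv, Real.norm_eq_abs, abs_of_pos hr]
      have e : r⁻¹ * ‖y - x‖ - s / r = (‖y - x‖ - s) / r := by
        field_simp
      rw [e, abs_div, abs_of_pos hr, div_le_iff₀ hr]
      exact hy)
  rw [hus, htt, om_s (hvs _ htT), smul_smul, mul_inv_cancel₀ hr.ne', one_smul,
    add_sub_cancel] at key
  rw [le_div_iff₀ hr2]
  linarith

end Pool.Agent.H1CV
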