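import Pool.Agent.Q284.CL.Vel
import Pool.Agent.TH305.DR.Loc
import Pool.Agent.Q26.CC.Fin
import Pool.Agent.H2CV.Defs

/-!
Project CV: bounds of the velocity and its derivatives at a good point (`StmVelT`).
-/

set_option autoImplicit false

open MeasureTheory Set Metric Filter Topology
open scoped ContDiff

namespace Pool.Agent.H1CV

open H459R3.NS
open Pool.Agent.Q67.VD (om len pot ker_val ker_int)
open Pool.Agent.W268.NS (vort gradM)
open Pool.Agent.TH305.DR (SS N N_nonneg N_mono el_ball pointN N0_le SS_nonneg SS_scale SS_zero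
  N_int pd_scale1)
open Pool.Agent.W583.MD (sm_pd)
open Pool.Agent.Q85.CC (SQ cur Gd)
open Pool.Agent.Q85.CL (SM DFO MorB)
open Pool.Agent.Q26.CC (SQ_eq)
open Pool.Agent.H2CV (StmVelT)

/-- The interior estimate of order `n` of a solution of `Δ f = ∑ ∂ₘ gₘ`. -/
lemma el_N (n : ℕ) : ∀ {ρ' ρ : ℝ}, 0 < ρ' → ρ' < ρ → ∃ C : ℝ, 0 < C ∧ ∀ (f : V → ℝ)
    (g : Fin 3 → V → ℝ), ContDiff ℝ ∞ f → (∀ m, ContDiff ℝ ∞ (g m)) →
    (∀ x ∈ ball (0 : V) ρ, lap f x = ∑ m, pd m (g m) x) →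
    N n ρ' f ≤ C * (N 0 ρ f + ∑ k ∈ Finset.range n, ∑ m, N k ρ (g m)) := by
  induction n with
  | zero =>
    intro ρ' ρ h0 h
    exact ⟨1, one_pos, fun f g hf _ _ => by
      simpa using N_mono 0 h.le hf⟩
  | succ n ih =>
    intro ρ' ρ h0 h
    have a1 : ρ' < (ρ' + ρ) / 2 := by linarith
    have a2 : (ρ' + ρ) / 2 < ρ := by linarith
    obtain ⟨C1, hC1, H1⟩ := el_ball h0 a1
    obtain ⟨C2, hC2, H2⟩ := ih (h0.trans a1) a2
    refine ⟨C1 * (C2 + 1), by positivity, fun f g hf hg hl => ?_⟩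
    have h3 := H1 n f g hf hg (fun x hx => hl x (ball_subset_ball a2.le hx))
    have h5 := H2 f g hf hg hl
    have h6 : ∑ m, N n ((ρ' + ρ) / 2) (g m) ≤ ∑ m, N n ρ (g m) :=
      Finset.sum_le_sum fun m _ => N_mono n a2.le (hg m)
    rw [Finset.sum_range_succ]
    have h7 : 0 ≤ ∑ k ∈ Finset.range n, ∑ m, N k ρ (g m) :=
      Finset.sum_nonneg fun k _ => Finset.sum_nonneg fun m _ => N_nonneg _ _ _
    have h8 : 0 ≤ N 0 ρ f := N_nonneg _ _ _
    have h9 : 0 ≤ ∑ m, N n ρ (g m) := Finset.sum_nonneg fun m _ => N_nonneg _ _ _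
    calc N (n + 1) ρ' f ≤ C1 * (N n ((ρ' + ρ) / 2) f + ∑ m, N n ((ρ' + ρ) / 2) (g m)) := h3
      _ ≤ C1 * (C2 * (N 0 ρ f + ∑ k ∈ Finset.range n, ∑ m, N k ρ (g m)) + ∑ m, N n ρ (g m)) := by
          apply mul_le_mul_of_nonneg_left _ hC1.le
          linarith
      _ ≤ C1 * ((C2 + 1) * (N 0 ρ f + (∑ k ∈ Finset.range n, ∑ m, N k ρ (g m)
            + ∑ m, N n ρ (g m)))) := by
          apply mul_le_mul_of_nonneg_left _ hC1.le
          have h10 := mul_nonneg hC2.le h9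
          nlinarith
      _ = _ := by ring

/-- The bound of `∫ |∇ⁿ f|²` from a pointwise bound. -/
lemma N_leB {n : ℕ} {ρ B : ℝ} (hρ : ρ ≤ 1) (hB : 0 ≤ B) {f : V → ℝ} (hf : ContDiff ℝ ∞ f)
    (h : ∀ x ∈ ball (0 : V) ρ, SS n f x ≤ B) : N n ρ f ≤ 8 * B := by
  have h1 : N n ρ f ≤ ∫ _ in ball (0 : V) ρ, B := by
    apply setIntegral_mono_on (N_int n ρ hf) (integrableOn_const measure_ball_lt_top.ne)
      measurableSet_ball
    intro x hx
    exact h x hx
  refine h1.trans ?_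
  rw [setIntegral_const, smul_eq_mul]
  exact mul_le_mul_of_nonneg_right (Pool.Agent.TH305.DR.vol_ball_le hρ) hB

/-- The pointwise interior estimate at unit scale. -/
lemma el_pt (n : ℕ) : ∃ C : ℝ, 0 < C ∧ ∀ (f : V → ℝ)
    (g : Fin 3 → V → ℝ) (A B : ℝ), 0 ≤ A → 0 ≤ B → ContDiff ℝ ∞ f → (∀ m, ContDiff ℝ ∞ (g m)) →
    (∀ x ∈ ball (0 : V) (1 / 2), lap f x = ∑ m, pd m (g m) x) →
    (∀ x ∈ ball (0 : V) (1 / 2), f x ^ 2 ≤ A) →
    (∀ k ≤ n + 2, ∀ m, ∀ x ∈ ball (0 : V) (1 / 2), SS k (g m) x ≤ B) →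
    SS n f 0 ≤ C * (A + B) := by
  obtain ⟨C, hC, H⟩ := pointN (ρ' := 1 / 8) (ρ := 1 / 4) (by norm_num) (by norm_num)
    (by norm_num)
  obtain ⟨D0, hD0, H0⟩ := el_N n (ρ' := 1 / 4) (ρ := 1 / 2) (by norm_num) (by norm_num)
  obtain ⟨D1, hD1, H1⟩ := el_N (n + 1) (ρ' := 1 / 4) (ρ := 1 / 2) (by norm_num) (by norm_num)
  obtain ⟨D2, hD2, H2⟩ := el_N (n + 2) (ρ' := 1 / 4) (ρ := 1 / 2) (by norm_num) (by norm_num)
  obtain ⟨D3, hD3, H3⟩ := el_N (n + 3) (ρ' := 1 / 4) (ρ := 1 / 2) (by norm_num) (by norm_num)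
  refine ⟨C * ((D0 + D1 + D2 + D3) * (8 + 24 * (n + 3))), by positivity, ?_⟩
  intro f g A B hA hB hf hg hl h0 hk
  have hN0 : N 0 (1 / 2) f ≤ 8 * A := N0_le (by norm_num) hA hf h0
  have hNk : ∀ k ≤ n + 2, ∀ m, N k (1 / 2) (g m) ≤ 8 * B := fun k h m =>
    N_leB (by norm_num) hB (hg m) (hk k h m)
  have hsum : ∀ j ≤ n + 3, N 0 (1 / 2) f + ∑ k ∈ Finset.range j, ∑ m, N k (1 / 2) (g m)
      ≤ (8 + 24 * (n + 3)) * (A + B) := by
    intro j hj
    have e1 : ∑ k ∈ Finset.range j, ∑ m, N k (1 / 2) (g m)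
        ≤ ∑ _k ∈ Finset.range j, 24 * B := by
      apply Finset.sum_le_sum
      intro k hk'
      have hk2 : k ≤ n + 2 := by
        have := Finset.mem_range.1 hk'
        omega
      rw [Fin.sum_univ_three]
      have a0 := hNk k hk2 0
      have a1 := hNk k hk2 1
      have a2 := hNk k hk2 2
      linarith
    rw [Finset.sum_const, Finset.card_range, nsmul_eq_mul] at e1
    have e2 : (j : ℝ) ≤ n + 3 := by exact_mod_cast hj
    have e3 : (j : ℝ) * (24 * B) ≤ (n + 3) * (24 * B) :=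
      mul_le_mul_of_nonneg_right e2 (by positivity)
    have e4 : (0 : ℝ) ≤ n := by positivity
    have e5 : 0 ≤ (n : ℝ) * A := by positivity
    nlinarith
  have h1 := (H0 f g hf hg hl).trans (mul_le_mul_of_nonneg_left (hsum n (by omega)) hD0.le)
  have h2 := (H1 f g hf hg hl).trans (mul_le_mul_of_nonneg_left (hsum (n + 1) (by omega)) hD1.le)
  have h3 := (H2 f g hf hg hl).trans (mul_le_mul_of_nonneg_left (hsum (n + 2) (by omega)) hD2.le)
  have h4 := (H3 f g hf hg hl).trans (mul_le_mul_of_nonneg_left (hsum (n + 3) (by omega)) hD3.le)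
  refine (H n f hf 0 (mem_ball_self (by norm_num))).trans ?_
  rw [mul_assoc, mul_assoc]
  apply mul_le_mul_of_nonneg_left _ hC.le
  linarith

/-- The vorticity at a good point. -/
lemma om_good {c ρ : ℝ} (hc : 0 ≤ c) (hρ : 0 < ρ) {v : V → V} {y : V} (h : Gd c ρ v y) {z : V}
    (hz : z ∈ ball y ρ) : om v z ≤ 2 * c / ρ ^ 2 := by
  have h1 : ∀ i j, cur i j v z ^ 2 ≤ (c / ρ ^ 2) ^ 2 := by
    intro i j
    have := h z hz 0 i j
    rw [SQ_eq, SS_zero] at this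
    simpa using this
  have h2 : om v z ^ 2 ≤ 3 * (c / ρ ^ 2) ^ 2 := by
    rw [Pool.Agent.Q199.VD.om_sq]
    have e : vort v z ⬝ᵥ vort v z = cur 1 2 v z ^ 2 + cur 2 0 v z ^ 2 + cur 0 1 v z ^ 2 := by
      unfold vort cur gradM
      simp [dotProduct, Fin.sum_univ_three]
      ring
    rw [e]
    linarith [h1 1 2, h1 2 0, h1 0 1]
  have h3 : 0 ≤ c / ρ ^ 2 := by positivity
  have h4 : (2 * c / ρ ^ 2) = 2 * (c / ρ ^ 2) := by ring
  rw [h4]
  apply le_of_sq_le_sq _ (by positivity)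
  nlinarith

lemma pot_good {c ρ : ℝ} (hc : 0 ≤ c) (hρ : 0 < ρ) {v : V → V} (hv : SM v) {y : V}
    (h : Gd c ρ v y) {z : V}
    (hz : z ∈ ball y (ρ / 2)) : pot (ρ / 4) (om v) z ≤ 12 * c / ρ := by
  unfold pot
  have h1 : ∀ w ∈ closedBall (0 : V) (ρ / 4), |om v (z + w)| / ‖w‖ ^ 2
      ≤ 2 * c / ρ ^ 2 * (‖w‖ ^ 2)⁻¹ := by
    intro w hw
    rw [div_eq_mul_inv]
    apply mul_le_mul_of_nonneg_right _ (by positivity)
    rw [abs_of_nonneg (Pool.Agent.Q199.VD.om_nonneg v _)]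
    apply om_good hc hρ h
    rw [mem_ball, dist_eq_norm] at hz ⊢
    rw [mem_closedBall_zero_iff] at hw
    calc ‖z + w - y‖ = ‖(z - y) + w‖ := by congr 1; abel
      _ ≤ ‖z - y‖ + ‖w‖ := norm_add_le _ _
      _ < ρ := by linarith
  refine (setIntegral_mono_on (Pool.Agent.Q284.CL.pot_int (Pool.Agent.Q85.CL.om_contL hv) _ _)
    ((ker_int (ρ / 4)).const_mul _) measurableSet_closedBall h1).trans ?_
  rw [integral_const_mul, ker_val (by positivity)]
  apply le_of_eq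
  field_simp
  ring

theorem velT : StmVelT := by
  obtain ⟨C1, hC1, hV⟩ := Pool.Agent.Q284.CL.velL
  intro c K hc hK
  have hel := fun n => el_pt n
  choose D hD HD using hel
  obtain ⟨F, hF⟩ : ∃ F : ℝ, F = C1 * (12 * c + 4 * K + 1) := ⟨_, rfl⟩
  have hF0 : 0 ≤ F := by rw [hF]; positivity
  obtain ⟨G, hG⟩ : ∃ G : ℝ, G = (c ^ 7 * 720) ^ 2 := ⟨_, rfl⟩
  have hG0 : 0 ≤ G := by rw [hG]; positivity
  obtain ⟨S, hS⟩ : ∃ S : ℝ, S = D 0 + D 1 + D 2 + D 3 + D 4 := ⟨_, rfl⟩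
  have hS0 : 0 ≤ S := by
    have := hD 0
    have := hD 1
    have := hD 2
    have := hD 3
    have := hD 4
    rw [hS]
    positivity
  obtain ⟨C, hC⟩ : ∃ C : ℝ, C = 1 + S * (F ^ 2 + G) := ⟨_, rfl⟩
  have hC1' : 1 ≤ C := by
    have : 0 ≤ S * (F ^ 2 + G) := by positivity
    linarith
  refine ⟨C, hC1', ?_⟩
  intro v a y ρ₀ ρ Q hv hQ hρ hρρ hρ1 hdiv hM hQl hy hg n hn i
  have hρ₀ : 0 < ρ₀ := by linarith
  have hc0 : 0 ≤ c := by linarith
  -- the pointwise bound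
  have hpt : ∀ z ∈ ball y (ρ / 2), |v z i| ≤ F * (1 + Q) / ρ := by
    intro z hz
    have h1 := (hV v a K ρ₀ (ρ / 4) hv hdiv hK (by positivity) (by linarith) hM z (by
      rw [mem_ball, dist_eq_norm] at hz
      calc ‖z - a‖ = ‖(z - y) + (y - a)‖ := by congr 1; abel
        _ ≤ ‖z - y‖ + ‖y - a‖ := norm_add_le _ _
        _ ≤ ρ₀ / 2 := by linarith) i).1
    refine h1.trans ?_
    have h2 := pot_good hc0 hρ hv hg hz
    have h3 : K / (ρ / 4) = 4 * K / ρ := by field_simp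
    rw [h3]
    have h4 : Q ≤ Q / ρ := by
      rw [le_div_iff₀ hρ]
      nlinarith
    have h5 : pot (ρ / 4) (om v) z + 4 * K / ρ
        + √((∫ z in closedBall a ρ₀, W221.NS.nsq v z) / ρ₀ ^ 3)
        ≤ (12 * c + 4 * K + Q) / ρ := by
      have e : (12 * c + 4 * K + Q) / ρ = 12 * c / ρ + 4 * K / ρ + Q / ρ := by ring
      rw [e]
      linarith
    have h6 : (12 * c + 4 * K + Q) / ρ ≤ (12 * c + 4 * K + 1) * (1 + Q) / ρ := by
      apply div_le_div_of_nonneg_right _ hρ.le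
      nlinarith [mul_nonneg hc0 hQ, mul_nonneg hK hQ]
    calc C1 * (pot (ρ / 4) (om v) z + 4 * K / ρ
        + √((∫ z in closedBall a ρ₀, W221.NS.nsq v z) / ρ₀ ^ 3))
        ≤ C1 * ((12 * c + 4 * K + 1) * (1 + Q) / ρ) :=
          mul_le_mul_of_nonneg_left (h5.trans h6) hC1.le
      _ = _ := by rw [hF]; ring
  -- the rescaled fields
  have hsub : ∀ w ∈ ball (0 : V) (1 / 2), y + ρ • w ∈ ball y (ρ / 2) := by
    intro w hw
    rw [mem_ball_zero_iff] at hw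
    rw [mem_ball, dist_eq_norm, add_sub_cancel_left, norm_smul, Real.norm_eq_abs, abs_of_pos hρ]
    nlinarith
  have hvi := hv i
  have hf : ContDiff ℝ ∞ (fun w : V => ρ * v (y + ρ • w) i) :=
    contDiff_const.mul (hvi.comp (contDiff_const.add (contDiff_const_smul ρ)))
  have hcs : ∀ m, ContDiff ℝ ∞ (cur m i v) := fun m => Pool.Agent.Q284.CL.sm_cur hv m i
  have hgm : ∀ m, ContDiff ℝ ∞ (fun w : V => ρ ^ 2 * cur m i v (y + ρ • w)) := fun m =>
    contDiff_const.mul ((hcs m).comp (contDiff_const.add (contDiff_const_smul ρ)))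
  have hsca := HD n (fun w : V => ρ * v (y + ρ • w) i)
    (fun m w => ρ ^ 2 * cur m i v (y + ρ • w)) ((F * (1 + Q)) ^ 2) G (by positivity) hG0 hf hgm
    (by
      intro w hw
      have e1 : lap (fun w : V => ρ * v (y + ρ • w) i) w
          = ρ ^ 3 * lap (fun z => v z i) (y + ρ • w) := by
        unfold lap
        rw [Finset.mul_sum]
        refine Finset.sum_congr rfl fun j _ => ?_
        rw [pd_scale1 hvi, pd_scale1 (sm_pd hvi j)]
        ring
      rw [e1, Pool.Agent.Q284.CL.lap_curL hv isOpen_ball hdiv i (x := y + ρ • w) (by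
        have h1 := hsub w hw
        rw [mem_ball, dist_eq_norm] at h1 ⊢
        calc ‖y + ρ • w - a‖ = ‖(y + ρ • w - y) + (y - a)‖ := by congr 1; abel
          _ ≤ ‖y + ρ • w - y‖ + ‖y - a‖ := norm_add_le _ _
          _ < ρ₀ := by linarith), Finset.mul_sum]
      refine Finset.sum_congr rfl fun m _ => ?_
      rw [pd_scale1 (hcs m)]
      ring)
    (by
      intro w hw
      have h1 := hpt _ (hsub w hw)
      have h2 : |ρ * v (y + ρ • w) i| ≤ F * (1 + Q) := by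
        rw [abs_mul, abs_of_pos hρ]
        rw [le_div_iff₀ hρ] at h1
        linarith
      rw [← sq_abs]
      exact pow_le_pow_left₀ (abs_nonneg _) h2 2)
    (by
      intro k hk m w hw
      have h1 := hg (y + ρ • w) (ball_subset_ball (by linarith) (hsub w hw)) k m i
      rw [SQ_eq] at h1
      rw [SS_scale k (hcs m)]
      have h2 : (c ^ (k + 1) * k.factorial) ^ 2 ≤ G := by
        rw [hG]
        apply pow_le_pow_left₀ (by positivity)
        have h3 : c ^ (k + 1) ≤ c ^ 7 := pow_le_pow_right₀ hc (by omega)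
        have h4 : (k.factorial : ℝ) ≤ 720 := by
          have : k.factorial ≤ (6 : ℕ).factorial := Nat.factorial_le (by omega)
          have h5 : (6 : ℕ).factorial = 720 := rfl
          rw [h5] at this
          exact_mod_cast this
        exact mul_le_mul h3 h4 (by positivity) (by positivity)
      refine le_trans ?_ h2
      calc (ρ ^ 2) ^ 2 * (ρ ^ 2) ^ k * SS k (cur m i v) (y + ρ • w)
          ≤ (ρ ^ 2) ^ 2 * (ρ ^ 2) ^ k * (c ^ (k + 1) * k.factorial / ρ ^ (k + 2)) ^ 2 :=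
            mul_le_mul_of_nonneg_left h1 (by positivity)
        _ = (c ^ (k + 1) * k.factorial) ^ 2 := by
            field_simp
            ring)
  rw [SS_scale n hvi, smul_zero, add_zero] at hsca
  rw [SQ_eq]
  have hDS : D n ≤ S := by
    have h0 := hD 0
    have h1 := hD 1
    have h2 := hD 2
    have h3 := hD 3
    have h4 := hD 4
    rw [hS]
    interval_cases n <;> linarith
  have h1 : ρ ^ 2 * (ρ ^ 2) ^ n * SS n (fun z => v z i) y ≤ (C * (1 + Q)) ^ 2 := by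
    refine hsca.trans ?_
    have h2 : D n * ((F * (1 + Q)) ^ 2 + G) ≤ S * ((F * (1 + Q)) ^ 2 + G) :=
      mul_le_mul_of_nonneg_right hDS (by positivity)
    refine h2.trans ?_
    have h3 : 1 ≤ (1 + Q) ^ 2 := by nlinarith
    have h4 : (F * (1 + Q)) ^ 2 + G ≤ (F ^ 2 + G) * (1 + Q) ^ 2 := by nlinarith
    have h5 : S * ((F * (1 + Q)) ^ 2 + G) ≤ S * ((F ^ 2 + G) * (1 + Q) ^ 2) :=
      mul_le_mul_of_nonneg_left h4 hS0
    refine h5.trans ?_
    have h6 : S * (F ^ 2 + G) ≤ C ^ 2 := by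
      have : 0 ≤ S * (F ^ 2 + G) := by positivity
      nlinarith
    calc S * ((F ^ 2 + G) * (1 + Q) ^ 2) = S * (F ^ 2 + G) * (1 + Q) ^ 2 := by ring
      _ ≤ C ^ 2 * (1 + Q) ^ 2 := mul_le_mul_of_nonneg_right h6 (by positivity)
      _ = _ := by ring
  rw [div_pow, le_div_iff₀ (by positivity)]
  calc SS n (fun z => v z i) y * (ρ ^ (n + 1)) ^ 2
      = ρ ^ 2 * (ρ ^ 2) ^ n * SS n (fun z => v z i) y := by ring
    _ ≤ _ := h1

end Pool.Agent.H1CV
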